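import Pool.Agent.TH18.VS.Fib

/-! The induction for virtual surjections. -/

set_option autoImplicit false

namespace Pool.Agent.TH18.VS

open Pool.Agent.W326.DU (IL ZG)
open Pool.Agent.W571.DU
open Pool.Agent.TH18
open Pool.Agent.TH18.NN

variable {ι : Type} [DecidableEq ι] {Γ : ι → Type} [∀ i, Group (Γ i)]

/-- evaluation -/
abbrev ev (i : ι) : (∀ i, Γ i) →* Γ i := Pi.evalMonoidHom Γ i

/-- the elements of `P` whose coordinates in `J` are trivial -/
def KS (P : Subgroup (∀ i, Γ i)) (J : Finset ι) : Subgroup (∀ i, Γ i) where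
  carrier := {x | x ∈ P ∧ ∀ j ∈ J, x j = 1}
  mul_mem' := by
    rintro a b ⟨ha, ha'⟩ ⟨hb, hb'⟩
    exact ⟨P.mul_mem ha hb, fun j hj => by rw [Pi.mul_apply, ha' j hj, hb' j hj, mul_one]⟩
  one_mem' := ⟨P.one_mem, fun _ _ => rfl⟩
  inv_mem' := by
    rintro a ⟨ha, ha'⟩
    exact ⟨P.inv_mem ha, fun j hj => by rw [Pi.inv_apply, ha' j hj, inv_one]⟩

theorem mem_KS {P : Subgroup (∀ i, Γ i)} {J : Finset ι} {x : ∀ i, Γ i} :
    x ∈ KS P J ↔ x ∈ P ∧ ∀ j ∈ J, x j = 1 := Iff.rfl

theorem KS_le (P : Subgroup (∀ i, Γ i)) (J : Finset ι) : KS P J ≤ P := fun _ h => h.1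

theorem KS_empty (P : Subgroup (∀ i, Γ i)) : KS P ∅ = P := by
  ext x
  exact ⟨fun h => h.1, fun h => ⟨h, fun j hj => absurd hj (Finset.notMem_empty j)⟩⟩

/-- `P` is supported on `I` -/
def Supp (I : Finset ι) (P : Subgroup (∀ i, Γ i)) : Prop := ∀ x ∈ P, ∀ i, i ∉ I → x i = 1

/-- `P` virtually surjects to `k`-tuples of factors in `I` -/
def VSur (k : ℕ) (I : Finset ι) (P : Subgroup (∀ i, Γ i)) : Prop :=
  ∀ i ∈ I, ∀ J ⊆ I, i ∉ J → J.card + 1 ≤ k → ((KS P J).map (ev i)).FiniteIndex

/-- the quotients of the factors are virtually nilpotent -/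
def CN (I : Finset ι) (P : Subgroup (∀ i, Γ i)) : Prop :=
  ∀ i ∈ I, ∃ V : Subgroup (Γ i), V.FiniteIndex ∧
    ∃ c, V.lowerCentralSeries c ≤ (KS P (I.erase i)).map (ev i)

theorem cn_of_vs {I : Finset ι} {P : Subgroup (∀ i, Γ i)} {k : ℕ} (hk : 2 ≤ k) (h : VSur k I P) :
    CN I P := by
  intro i hi
  let S : Finset (Finset ι) := I.powerset.filter (fun J => i ∉ J ∧ J.card ≤ 1)
  let V : Subgroup (Γ i) := ⨅ J ∈ S, (KS P J).map (ev i)
  have hV : V.FiniteIndex := by
    apply Subgroup.finiteIndex_iInf'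
    intro J hJ
    obtain ⟨h1, h2, h3⟩ := Finset.mem_filter.1 hJ
    exact h i hi J (Finset.mem_powerset.1 h1) h2 (by omega)
  have hle : ∀ J ⊆ I, i ∉ J → J.card ≤ 1 → V ≤ (KS P J).map (ev i) := by
    intro J h1 h2 h3
    exact iInf₂_le J (Finset.mem_filter.2 ⟨Finset.mem_powerset.2 h1, h2, h3⟩)
  have key : ∀ J : Finset ι, J ⊆ I → i ∉ J →
      V.lowerCentralSeries J.card ≤ (KS P J).map (ev i) := by
    intro J
    induction J using Finset.induction_on with
    | empty =>
      intro h1 h2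
      rw [Finset.card_empty, Subgroup.lowerCentralSeries_zero]
      exact hle ∅ h1 h2 (by simp)
    | insert j J hj ih =>
      intro h1 h2
      rw [Finset.card_insert_of_notMem hj, Subgroup.lowerCentralSeries_succ,
        Subgroup.commutator_le]
      intro a ha b hb
      have h1' : J ⊆ I := fun x hx => h1 (Finset.mem_insert_of_mem hx)
      obtain ⟨a', ha', rfl⟩ := ih h1' (fun hc => h2 (Finset.mem_insert_of_mem hc)) ha
      obtain ⟨b', hb', rfl⟩ := hle {j} (by
        intro x hx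
        rw [Finset.mem_singleton] at hx
        rw [hx]; exact h1 (Finset.mem_insert_self _ _)) (by
        intro hc
        rw [Finset.mem_singleton] at hc
        exact h2 (hc ▸ Finset.mem_insert_self _ _)) (by simp) hb
      refine ⟨a' * b' * a'⁻¹ * b'⁻¹, ⟨?_, ?_⟩, ?_⟩
      · exact P.mul_mem (P.mul_mem (P.mul_mem ha'.1 hb'.1) (P.inv_mem ha'.1)) (P.inv_mem hb'.1)
      · intro l hl
        rw [Pi.mul_apply, Pi.mul_apply, Pi.mul_apply, Pi.inv_apply,
          Pi.inv_apply]
        rcases Finset.mem_insert.1 hl with rfl | hl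
        · rw [hb'.2 _ (Finset.mem_singleton_self _)]; group
        · rw [ha'.2 _ hl]; group
      · rw [commutatorElement_def, map_mul, map_mul, map_mul, map_inv, map_inv]
  exact ⟨V, hV, _, key (I.erase i) (Finset.erase_subset _ _) (Finset.notMem_erase _ _)⟩

/-! ### restriction to a smaller set of factors -/

/-- projection to the factors in `I` -/
def proj (I : Finset ι) : (∀ i, Γ i) →* (∀ i, Γ i) where
  toFun x i := if i ∈ I then x i else 1
  map_one' := by
    funext i
    show (if i ∈ I then (1 : Γ i) else 1) = 1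
    split <;> rfl
  map_mul' x y := by
    funext i
    show (if i ∈ I then x i * y i else 1) = (if i ∈ I then x i else 1) * (if i ∈ I then y i else 1)
    split
    · rfl
    · rw [mul_one]

theorem proj_mem {I : Finset ι} {i : ι} (hi : i ∈ I) (x : ∀ i, Γ i) : proj I x i = x i := if_pos hi

theorem proj_not {I : Finset ι} {i : ι} (hi : i ∉ I) (x : ∀ i, Γ i) : proj I x i = 1 := if_neg hi

theorem supp_proj (I : Finset ι) (P : Subgroup (∀ i, Γ i)) : Supp I (P.map (proj I)) := by
  rintro _ ⟨x, _, rfl⟩ i hi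
  exact proj_not hi x

theorem map_KS_proj (I J : Finset ι) (P : Subgroup (∀ i, Γ i)) {i : ι} (hi : i ∈ I) :
    (KS P J).map (ev i) ≤ (KS (P.map (proj I)) J).map (ev i) := by
  rintro _ ⟨x, hx, rfl⟩
  refine ⟨proj I x, ⟨⟨x, hx.1, rfl⟩, fun j hj => ?_⟩, proj_mem hi x⟩
  by_cases h : j ∈ I
  · rw [proj_mem h]; exact hx.2 j hj
  · exact proj_not h x

section step
variable {I : Finset ι} {P : Subgroup (∀ i, Γ i)} {k : ℕ} {m : ι}

theorem vs_proj (h : VSur k I P) : VSur k (I.erase m) (P.map (proj (I.erase m))) := by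
  intro i hi J hJ hiJ hc
  have h1 := h i (Finset.mem_of_mem_erase hi) J (fun x hx => Finset.mem_of_mem_erase (hJ hx)) hiJ hc
  exact Subgroup.finiteIndex_of_le (map_KS_proj (I.erase m) J P hi)

theorem KS_KS (J J' : Finset ι) : KS (KS P J) J' = KS P (J ∪ J') := by
  ext x
  constructor
  · rintro ⟨⟨h1, h2⟩, h3⟩
    refine ⟨h1, fun j hj => ?_⟩
    rcases Finset.mem_union.1 hj with hj | hj
    · exact h2 j hj
    · exact h3 j hj
  · rintro ⟨h1, h2⟩
    exact ⟨⟨h1, fun j hj => h2 j (Finset.mem_union_left _ hj)⟩,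
      fun j hj => h2 j (Finset.mem_union_right _ hj)⟩

theorem vs_ker (hm : m ∈ I) (h : VSur (k + 1) I P) : VSur k (I.erase m) (KS P {m}) := by
  intro i hi J hJ hiJ hc
  rw [KS_KS]
  apply h i (Finset.mem_of_mem_erase hi)
  · intro x hx
    rcases Finset.mem_union.1 hx with hx | hx
    · rw [Finset.mem_singleton] at hx; rw [hx]; exact hm
    · exact Finset.mem_of_mem_erase (hJ hx)
  · intro hx
    rcases Finset.mem_union.1 hx with hx | hx
    · rw [Finset.mem_singleton] at hx
      exact Finset.ne_of_mem_erase hi hx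
    · exact hiJ hx
  · have : ({m} ∪ J).card ≤ J.card + 1 := by
      refine (Finset.card_union_le _ _).trans ?_
      rw [Finset.card_singleton]; omega
    omega

theorem cn_proj (h : CN I P) : CN (I.erase m) (P.map (proj (I.erase m))) := by
  intro i hi
  obtain ⟨V, hV, c, hc⟩ := h i (Finset.mem_of_mem_erase hi)
  refine ⟨V, hV, c, hc.trans ?_⟩
  refine le_trans ?_ (map_KS_proj (I.erase m) _ P hi)
  apply Subgroup.map_mono
  intro x hx
  exact ⟨hx.1, fun j hj => hx.2 j (by
    have h1 := Finset.mem_of_mem_erase hj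
    exact Finset.mem_erase.2 ⟨Finset.ne_of_mem_erase hj, Finset.mem_of_mem_erase h1⟩)⟩

theorem cn_ker (hm : m ∈ I) (h : CN I P) : CN (I.erase m) (KS P {m}) := by
  intro i hi
  obtain ⟨V, hV, c, hc⟩ := h i (Finset.mem_of_mem_erase hi)
  refine ⟨V, hV, c, hc.trans ?_⟩
  rw [KS_KS]
  apply Subgroup.map_mono
  intro x hx
  refine ⟨hx.1, fun j hj => hx.2 j ?_⟩
  rcases Finset.mem_union.1 hj with hj | hj
  · rw [Finset.mem_singleton] at hj
    rw [hj]
    exact Finset.mem_erase.2 ⟨fun h => Finset.ne_of_mem_erase hi h.symm, hm⟩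
  · exact Finset.mem_erase.2 ⟨Finset.ne_of_mem_erase hj,
      Finset.mem_of_mem_erase (Finset.mem_of_mem_erase hj)⟩

theorem supp_ker (h : Supp I P) : Supp (I.erase m) (KS P {m}) := by
  intro x hx i hi
  by_cases h1 : i = m
  · rw [h1]; exact hx.2 m (Finset.mem_singleton_self _)
  · exact h x hx.1 i (fun h2 => hi (Finset.mem_erase.2 ⟨h1, h2⟩))

end step

/-! ### the quotients -/

section quo
variable (P : Subgroup (∀ i, Γ i))

instance normal_KS (J : Finset ι) : ((KS P J).subgroupOf P).Normal := by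
  refine ⟨fun x hx g => ?_⟩
  rw [Subgroup.mem_subgroupOf] at *
  refine ⟨P.mul_mem (P.mul_mem g.2 hx.1) (P.inv_mem g.2), fun j hj => ?_⟩
  show g.1 j * x.1 j * (g.1 j)⁻¹ = 1
  rw [hx.2 j hj]; group

/-- quotients as images -/
noncomputable def quoEquiv {G H : Type} [Group G] [Group H] (P : Subgroup G) (f : G →* H)
    (N : Subgroup P) [N.Normal] (hN : ∀ x : P, x ∈ N ↔ f x = 1) : (P ⧸ N) ≃* (P.map f) :=
  (QuotientGroup.quotientMulEquivOfEq (M := N) (N := (f.comp P.subtype).ker) (by
    ext x; exact hN x)).trans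
  ((QuotientGroup.quotientKerEquivRange (f.comp P.subtype)).trans
    (MulEquiv.subgroupCongr (by rw [MonoidHom.range_comp, Subgroup.range_subtype])))

noncomputable def eqvP (I : Finset ι) : (P ⧸ ((KS P I).subgroupOf P)) ≃* (P.map (proj I)) :=
  quoEquiv P (proj I) _ (by
    intro x
    rw [Subgroup.mem_subgroupOf]
    constructor
    · intro hx
      funext i
      by_cases hi : i ∈ I
      · rw [proj_mem hi]; exact hx.2 i hi
      · exact proj_not hi _
    · intro hx
      refine ⟨x.2, fun i hi => ?_⟩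
      rw [← proj_mem hi x.1, hx]; rfl)

noncomputable def eqvE (m : ι) : (P ⧸ ((KS P {m}).subgroupOf P)) ≃* (P.map (ev m)) :=
  quoEquiv P (ev m) _ (by
    intro x
    rw [Subgroup.mem_subgroupOf]
    constructor
    · intro hx
      exact hx.2 m (Finset.mem_singleton_self _)
    · intro hx
      refine ⟨x.2, fun i hi => ?_⟩
      rw [Finset.mem_singleton] at hi
      rw [hi]; exact hx)

theorem inf_bot {I : Finset ι} {m : ι} (hs : Supp I P) :
    (KS P {m}).subgroupOf P ⊓ (KS P (I.erase m)).subgroupOf P = ⊥ := by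
  rw [eq_bot_iff]
  rintro x ⟨h1, h2⟩
  rw [Subgroup.mem_bot]
  apply Subtype.ext
  funext i
  show x.1 i = 1
  have h1' : x.1 ∈ KS P {m} := h1
  have h2' : x.1 ∈ KS P (I.erase m) := h2
  by_cases hi : i = m
  · rw [hi]; exact h1'.2 m (Finset.mem_singleton_self _)
  · by_cases hI : i ∈ I
    · exact h2'.2 i (Finset.mem_erase.2 ⟨hi, hI⟩)
    · exact hs _ x.2 i hI

/-- the common quotient is virtually nilpotent -/
theorem quo_nil {I : Finset ι} {m : ι} (hm : m ∈ I) (hc : CN I P)
    (hfg : Group.FG (P ⧸ ((KS P {m}).subgroupOf P))) :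
    FPres (P ⧸ ((KS P {m}).subgroupOf P ⊔ (KS P (I.erase m)).subgroupOf P)) ∧
    ∀ n, FPg n (P ⧸ ((KS P {m}).subgroupOf P ⊔ (KS P (I.erase m)).subgroupOf P)) := by
  let K := (KS P {m}).subgroupOf P
  let N := (KS P (I.erase m)).subgroupOf P
  obtain ⟨V, hV, c, hc⟩ := hc m hm
  let q : P →* P ⧸ (K ⊔ N) := QuotientGroup.mk' (K ⊔ N)
  have hq : Function.Surjective q := QuotientGroup.mk'_surjective _
  have hfg2 : Group.FG (P ⧸ (K ⊔ N)) := by
    let r : P ⧸ K →* P ⧸ (K ⊔ N) := QuotientGroup.map K (K ⊔ N) (MonoidHom.id P) (by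
      intro x hx; exact Subgroup.mem_sup_left hx)
    have hr : Function.Surjective r := by
      intro x
      obtain ⟨x, rfl⟩ := QuotientGroup.mk'_surjective _ x
      exact ⟨QuotientGroup.mk' K x, rfl⟩
    exact Group.fg_of_surjective hr
  let V' : Subgroup P := V.comap ((ev m).comp P.subtype)
  have hV' : V'.FiniteIndex := by
    refine ⟨?_⟩
    have h1 := Subgroup.index_comap V ((ev m).comp P.subtype)
    show (V.comap _).index ≠ 0
    rw [h1]
    exact (Subgroup.isFiniteRelIndex_of_finiteIndex (H := V)).relIndex_ne_zero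
  let W : Subgroup (P ⧸ (K ⊔ N)) := V'.map q
  have hW : W.FiniteIndex := ⟨fun h => hV'.index_ne_zero (by
    have := Subgroup.index_map_dvd V' hq
    rw [h] at this
    exact Nat.eq_zero_of_zero_dvd this)⟩
  have hWn : Group.IsNilpotent W := by
    rw [Subgroup.isNilpotent_iff_lowerCentralSeries]
    refine ⟨c, ?_⟩
    rw [← Subgroup.map_lowerCentralSeries, eq_bot_iff]
    rintro _ ⟨x, hx, rfl⟩
    have h1 : ev m x.1 ∈ V.lowerCentralSeries c := by
      have h2 : (V'.lowerCentralSeries c).map ((ev m).comp P.subtype) ≤ V.lowerCentralSeries c := by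
        rw [Subgroup.map_lowerCentralSeries]
        have h3 : V'.map ((ev m).comp P.subtype) ≤ V := Subgroup.map_comap_le _ _
        clear hx
        have h4 : ∀ c, (V'.map ((ev m).comp P.subtype)).lowerCentralSeries c ≤
            V.lowerCentralSeries c := by
          intro c
          induction c with
          | zero => exact h3
          | succ c ih => exact Subgroup.commutator_mono ih h3
        exact h4 c
      exact h2 ⟨x, hx, rfl⟩
    obtain ⟨y, hy, hxy⟩ := hc h1
    rw [Subgroup.mem_bot]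
    show (QuotientGroup.mk x : P ⧸ (K ⊔ N)) = 1
    rw [QuotientGroup.eq_one_iff]
    have hy' : (⟨y, hy.1⟩ : P) ∈ N := hy
    have h5 : x * (⟨y, hy.1⟩ : P)⁻¹ ∈ K := by
      refine ⟨(x * (⟨y, hy.1⟩ : P)⁻¹).2, fun j hj => ?_⟩
      rw [Finset.mem_singleton] at hj
      rw [hj]
      show x.1 m * (y m)⁻¹ = 1
      have : y m = x.1 m := hxy
      rw [this, mul_inv_cancel]
    have h6 : x = (x * (⟨y, hy.1⟩ : P)⁻¹) * ⟨y, hy.1⟩ := by group
    rw [h6]
    exact Subgroup.mul_mem _ (Subgroup.mem_sup_left h5) (Subgroup.mem_sup_right hy')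
  exact virt_nil _ W

end quo

/-- **The induction.** -/
theorem vsc_aux : ∀ (s k : ℕ) (I : Finset ι) (P : Subgroup (∀ i, Γ i)), I.card = s → Supp I P →
    VSur k I P → CN I P → (∀ i ∈ I, FPg k (Γ i)) → FPg k P := by
  intro s
  induction s with
  | zero =>
    intro k I P hI hs _ _ _
    have h0 : I = ∅ := Finset.card_eq_zero.1 hI
    have : Subsingleton P := by
      refine ⟨fun a b => Subtype.ext (funext fun i => ?_)⟩
      rw [hs a.1 a.2 i (by rw [h0]; exact Finset.notMem_empty _),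
        hs b.1 b.2 i (by rw [h0]; exact Finset.notMem_empty _)]
    exact FPg.of_finite P k
  | succ s ih =>
    intro k I P hI hs hv hc hΓ
    obtain ⟨m, hm⟩ : I.Nonempty := by
      rw [← Finset.card_pos, hI]; omega
    have hI' : (I.erase m).card = s := by
      rw [Finset.card_erase_of_mem hm, hI]; rfl
    rcases k with _ | k
    · exact FPg.zero P
    have hE : FPg (k + 1) (P.map (ev m)) := by
      have h1 := hv m hm ∅ (Finset.empty_subset _) (Finset.notMem_empty _) (by simp)
      rw [KS_empty] at h1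
      exact FPg.subgroup _ (hΓ m hm)
    have hE' : FPg (k + 1) (P ⧸ ((KS P {m}).subgroupOf P)) := hE.congr (eqvE P m).symm
    have hfg : Group.FG (P ⧸ ((KS P {m}).subgroupOf P)) := (hE'.mono (by omega : 1 ≤ k + 1)).fg
    have hT : FPg (k + 1) (P.map (proj (I.erase m))) :=
      ih (k + 1) (I.erase m) _ hI' (supp_proj _ _) (vs_proj hv) (cn_proj hc)
        (fun i hi => hΓ i (Finset.mem_of_mem_erase hi))
    have hT' : FPg (k + 1) (P ⧸ ((KS P (I.erase m)).subgroupOf P)) := hT.congr (eqvP P _).symm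
    obtain ⟨hQ1, hQ2⟩ := quo_nil P hm hc hfg
    rcases k with _ | k
    · have : Group.FG (P ⧸ ((KS P (I.erase m)).subgroupOf P)) := hT'.fg
      have := fg_two _ _ (inf_bot P hs) hQ1
      exact FPg.of_fg P
    · have hK : FPg (k + 1) (KS P {m}) :=
        ih (k + 1) (I.erase m) _ hI' (supp_ker hs) (vs_ker hm hv) (cn_ker hm hc)
          (fun i hi => (hΓ i (Finset.mem_of_mem_erase hi)).mono (by omega))
      have hK' : FPg (k + 1) ((KS P {m}).subgroupOf P) :=
        hK.congr (Subgroup.subgroupOfEquivOfLe (KS_le P _)).symm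
      exact fib _ _ (inf_bot P hs) hK' hT' hE' (hQ2 _) hQ1

end Pool.Agent.TH18.VS
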