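import Pool.Agent.TH18.VS.Rel
import Pool.Agent.TH18.VS.Virt

/-! Finite presentability of subdirect products. -/

set_option autoImplicit false

namespace Pool.Agent.TH18.VS

open Pool.Agent.W326.DU (IL ZG)
open Pool.Agent.W571.DU
open Pool.Agent.TH18
open Pool.Agent.TH18.NN

/-! ### subgroups of finite index -/

theorem fpres_free (G : Type) [Group G] [IsFreeGroup G] [Group.FG G] : FPres G := by
  classical
  obtain ⟨m, f, hf⟩ := fg_surj G
  choose c hc using hf
  let s : G →* FreeGroup (Fin m) := IsFreeGroup.lift (fun x => c (IsFreeGroup.of x))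
  have hs : f.comp s = MonoidHom.id G := by
    apply IsFreeGroup.ext_hom
    intro x
    show f (IsFreeGroup.lift _ (IsFreeGroup.of x)) = _
    rw [IsFreeGroup.lift_of, hc]; rfl
  have hs' : ∀ g, f (s g) = g := DFunLike.congr_fun hs
  let S : Finset (FreeGroup (Fin m)) :=
    Finset.univ.image (fun i => FreeGroup.of i * (s (f (FreeGroup.of i)))⁻¹)
  refine ⟨m, f, S, fun g => ⟨s g, hs' g⟩, le_antisymm ?_ ?_⟩
  · intro w hw
    let K := Subgroup.normalClosure (↑S : Set (FreeGroup (Fin m)))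
    have h1 : (QuotientGroup.mk' K) = (QuotientGroup.mk' K).comp (s.comp f) := by
      apply FreeGroup.ext_hom
      intro i
      show (QuotientGroup.mk (FreeGroup.of i) : FreeGroup (Fin m) ⧸ K) =
        QuotientGroup.mk (s (f (FreeGroup.of i)))
      rw [eq_comm, QuotientGroup.eq]
      have h2 : FreeGroup.of i * (s (f (FreeGroup.of i)))⁻¹ ∈ K := by
        apply Subgroup.subset_normalClosure
        exact Finset.mem_coe.2 (Finset.mem_image.2 ⟨i, Finset.mem_univ _, rfl⟩)
      have h3 := Subgroup.normalClosure_normal.conj_mem _ h2 (s (f (FreeGroup.of i)))⁻¹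
      have e : (s (f (FreeGroup.of i)))⁻¹ * (FreeGroup.of i * (s (f (FreeGroup.of i)))⁻¹) *
          (s (f (FreeGroup.of i)))⁻¹⁻¹ = (s (f (FreeGroup.of i)))⁻¹ * FreeGroup.of i := by group
      rwa [e] at h3
    have h4 := DFunLike.congr_fun h1 w
    have h5 : (QuotientGroup.mk' K) w = 1 := by
      rw [h4]
      show (QuotientGroup.mk' K) (s (f w)) = 1
      rw [MonoidHom.mem_ker.1 hw, map_one, map_one]
    exact (QuotientGroup.eq_one_iff w).1 h5
  · apply Subgroup.normalClosure_le_normal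
    intro x hx
    obtain ⟨i, _, rfl⟩ := Finset.mem_image.1 (Finset.mem_coe.1 hx)
    show f (FreeGroup.of i * (s (f (FreeGroup.of i)))⁻¹) = 1
    rw [map_mul, map_inv, hs', mul_inv_cancel]

/-- **Reidemeister–Schreier.** -/
theorem FPres.subgroup {G : Type} [Group G] (hG : FPres G) (K : Subgroup G) [hK : K.FiniteIndex] :
    FPres K := by
  classical
  obtain ⟨r, f, S, hf, hS⟩ := hG
  let L : Subgroup (FreeGroup (Fin r)) := K.comap f
  have hL : L.FiniteIndex := ⟨by
    rw [Subgroup.index_comap_of_surjective K hf]; exact hK.index_ne_zero⟩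
  have hLfg : Group.FG L := inferInstance
  have hLp : FPres L := fpres_free L
  have hfin : Finite (FreeGroup (Fin r) ⧸ L) := Subgroup.finite_quotient_of_finiteIndex
  have : Fintype (FreeGroup (Fin r) ⧸ L) := Fintype.ofFinite _
  let π : L →* K := (f.comp L.subtype).codRestrict K (fun x => x.2)
  have hπ : Function.Surjective π := by
    rintro ⟨g, hg⟩
    obtain ⟨w, rfl⟩ := hf g
    exact ⟨⟨w, hg⟩, rfl⟩
  have hker : f.ker ≤ L := by
    intro w hw
    show f w ∈ K
    rw [MonoidHom.mem_ker.1 hw]; exact K.one_mem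
  let cj : (FreeGroup (Fin r) ⧸ L) × FreeGroup (Fin r) → L := fun p =>
    if h : (p.1.out)⁻¹ * p.2 * p.1.out ∈ L then ⟨_, h⟩ else 1
  have hcj : ∀ q s, s ∈ f.ker → (cj (q, s)).1 = (q.out)⁻¹ * s * q.out := by
    intro q s hs
    have h1 : (q.out)⁻¹ * s * q.out ∈ L := by
      apply hker
      have := (inferInstance : f.ker.Normal).conj_mem _ hs (q.out)⁻¹
      rwa [inv_inv] at this
    show (if h : (q.out)⁻¹ * s * q.out ∈ L then (⟨_, h⟩ : L) else 1).1 = _
    rw [dif_pos h1]
  have hSk : ∀ s ∈ S, s ∈ f.ker := fun s hs => by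
    rw [hS]; exact Subgroup.subset_normalClosure hs
  let H : Finset L := (Finset.univ ×ˢ S).image cj
  refine FPres.quot hLp π hπ H (le_antisymm ?_ ?_)
  · intro w hw
    have hw1 : w.1 ∈ f.ker := congrArg Subtype.val hw
    rw [hS] at hw1
    let N := Subgroup.normalClosure (↑H : Set L)
    have hN : N.Normal := Subgroup.normalClosure_normal
    have h1 : Subgroup.normalClosure (↑S : Set (FreeGroup (Fin r))) ≤ N.map L.subtype := by
      unfold Subgroup.normalClosure
      rw [Subgroup.closure_le]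
      intro y hy
      rw [Group.mem_conjugatesOfSet_iff] at hy
      obtain ⟨a, ha, hca⟩ := hy
      obtain ⟨g, rfl⟩ := isConj_iff.1 hca
      -- `g = h⁻¹ q⁻¹`
      let q : FreeGroup (Fin r) ⧸ L := QuotientGroup.mk g⁻¹
      have hq : q.out⁻¹ * g⁻¹ ∈ L := by
        rw [← QuotientGroup.eq, QuotientGroup.out_eq']
      let l : L := ⟨q.out⁻¹ * g⁻¹, hq⟩
      have h2 : cj (q, a) ∈ N := Subgroup.subset_normalClosure (Finset.mem_coe.2
        (Finset.mem_image.2 ⟨(q, a), Finset.mem_product.2 ⟨Finset.mem_univ _, ha⟩, rfl⟩))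
      refine ⟨l⁻¹ * cj (q, a) * l⁻¹⁻¹, hN.conj_mem _ h2 _, ?_⟩
      show (q.out⁻¹ * g⁻¹)⁻¹ * (cj (q, a)).1 * (q.out⁻¹ * g⁻¹)⁻¹⁻¹ = g * a * g⁻¹
      rw [hcj q a (hSk a ha)]
      group
    obtain ⟨w', hw', e⟩ := h1 hw1
    have : w' = w := Subtype.ext e
    rw [← this]; exact hw'
  · apply Subgroup.normalClosure_le_normal
    intro y hy
    obtain ⟨⟨q, s⟩, hqs, rfl⟩ := Finset.mem_image.1 (Finset.mem_coe.1 hy)
    have hs := (Finset.mem_product.1 hqs).2
    apply Subtype.ext
    show f (cj (q, s)).1 = 1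
    rw [hcj q s (hSk s hs), map_mul, map_mul, MonoidHom.mem_ker.1 (hSk s hs), map_inv, mul_one,
      inv_mul_cancel]

/-! ### two normal subgroups -/

section two
variable {P : Type} [Group P] (K N : Subgroup P) [K.Normal] [N.Normal]

theorem fpres_two (hKN : K ⊓ N = ⊥) (hK : K.FG) (hPK : FPres (P ⧸ K)) (hPN : FPres (P ⧸ N))
    (hfg : Group.FG P) (hP : FPg 2 P) : FPres P := by
  classical
  obtain ⟨m, φ, hφ⟩ := fg_surj P
  obtain ⟨Y, hY⟩ := hPK.ker ((QuotientGroup.mk' K).comp φ)
    ((QuotientGroup.mk'_surjective K).comp hφ)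
  obtain ⟨Z, hZ⟩ := hPN.ker ((QuotientGroup.mk' N).comp φ)
    ((QuotientGroup.mk'_surjective N).comp hφ)
  obtain ⟨B0, hB0⟩ := hK
  choose s hs using hφ
  let Kh : Subgroup (FreeGroup (Fin m)) := K.comap φ
  let Nh : Subgroup (FreeGroup (Fin m)) := N.comap φ
  have hKh : ((QuotientGroup.mk' K).comp φ).ker = Kh := by
    ext w
    exact QuotientGroup.eq_one_iff (φ w)
  have hNh : ((QuotientGroup.mk' N).comp φ).ker = Nh := by
    ext w
    exact QuotientGroup.eq_one_iff (φ w)
  rw [hKh] at hY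
  rw [hNh] at hZ
  have hKhn : Kh.Normal := inferInstance
  have hNhn : Nh.Normal := inferInstance
  have hD : Kh ⊓ Nh = φ.ker := by
    ext w
    constructor
    · rintro ⟨h1, h2⟩
      have : φ w ∈ K ⊓ N := ⟨h1, h2⟩
      rw [hKN] at this
      exact this
    · intro h
      have h1 : φ w = 1 := h
      exact ⟨by show φ w ∈ K; rw [h1]; exact K.one_mem, by show φ w ∈ N; rw [h1]; exact N.one_mem⟩
  let B : Finset (FreeGroup (Fin m)) := B0.image s
  have hBK : ∀ b ∈ B, b ∈ Kh := by
    intro b hb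
    obtain ⟨b0, hb0, rfl⟩ := Finset.mem_image.1 hb
    show φ (s b0) ∈ K
    rw [hs, ← hB0]; exact Subgroup.subset_closure hb0
  let C := Subgroup.closure (↑B : Set (FreeGroup (Fin m)))
  have hC : C.map φ = K := by
    rw [MonoidHom.map_closure, ← hB0]
    congr 1
    ext y
    constructor
    · rintro ⟨b, hb, rfl⟩
      obtain ⟨b0, hb0, rfl⟩ := Finset.mem_image.1 (Finset.mem_coe.1 hb)
      rw [hs]; exact hb0
    · intro hy
      exact ⟨s y, Finset.mem_coe.2 (Finset.mem_image.2 ⟨y, hy, rfl⟩), hs y⟩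
  have hβ : ∀ w : FreeGroup (Fin m), ∃ c : FreeGroup (Fin m), c ∈ C ∧ (w ∈ Kh → φ c = φ w) := by
    intro w
    by_cases hw : w ∈ Kh
    · have : φ w ∈ C.map φ := by rw [hC]; exact hw
      obtain ⟨c, hc, h⟩ := this
      exact ⟨c, hc, fun _ => h⟩
    · exact ⟨1, C.one_mem, fun h => absurd h hw⟩
  choose β hβC hβ using hβ
  -- the relations
  let G : Finset (FreeGroup (Fin m)) :=
    Finset.univ.image (fun i : Fin m => FreeGroup.of i) ∪
    Finset.univ.image (fun i : Fin m => (FreeGroup.of i)⁻¹)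
  let S1 : Finset (FreeGroup (Fin m)) := (B ×ˢ Z).image (fun p => p.1 * p.2 * p.1⁻¹ * p.2⁻¹)
  let S2 : Finset (FreeGroup (Fin m)) :=
    (G ×ˢ B).image (fun p => p.1 * p.2 * p.1⁻¹ * (β (p.1 * p.2 * p.1⁻¹))⁻¹)
  let S3 : Finset (FreeGroup (Fin m)) := Y.image (fun y => y * (β y)⁻¹)
  let S0 := S1 ∪ S2 ∪ S3
  let N0 := Subgroup.normalClosure (↑S0 : Set (FreeGroup (Fin m)))
  have hN0 : N0.Normal := Subgroup.normalClosure_normal
  have hYK : ∀ y ∈ Y, y ∈ Kh := fun y hy => by rw [hY]; exact Subgroup.subset_normalClosure hy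
  have hZN : ∀ z ∈ Z, z ∈ Nh := fun z hz => by rw [hZ]; exact Subgroup.subset_normalClosure hz
  have hcomm : ∀ a ∈ Kh, ∀ b ∈ Nh, a * b * a⁻¹ * b⁻¹ ∈ φ.ker := by
    intro a ha b hb
    rw [← hD]
    constructor
    · have h1 := hKhn.conj_mem _ (Kh.inv_mem ha) b
      have e : a * b * a⁻¹ * b⁻¹ = a * (b * a⁻¹ * b⁻¹) := by group
      rw [e]; exact Kh.mul_mem ha h1
    · exact Nh.mul_mem (hNhn.conj_mem _ hb a) (Nh.inv_mem hb)
  have hS0 : ∀ y ∈ S0, y ∈ φ.ker := by
    intro y hy
    rcases Finset.mem_union.1 hy with hy | hy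
    · rcases Finset.mem_union.1 hy with hy | hy
      · obtain ⟨⟨b, z⟩, hbz, rfl⟩ := Finset.mem_image.1 hy
        obtain ⟨hb, hz⟩ := Finset.mem_product.1 hbz
        exact hcomm b (hBK b hb) z (hZN z hz)
      · obtain ⟨⟨g, b⟩, hgb, rfl⟩ := Finset.mem_image.1 hy
        obtain ⟨hg, hb⟩ := Finset.mem_product.1 hgb
        rw [MonoidHom.mem_ker, map_mul, map_inv, hβ _ (hKhn.conj_mem _ (hBK b hb) g),
          mul_inv_cancel]
    · obtain ⟨y', hy', rfl⟩ := Finset.mem_image.1 hy
      rw [MonoidHom.mem_ker, map_mul, map_inv, hβ _ (hYK y' hy'), mul_inv_cancel]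
  -- `C N0` is normal
  let K0 := C ⊔ N0
  have hK0mem : ∀ w, w ∈ K0 ↔ ∃ c ∈ C, ∃ n ∈ N0, c * n = w := by
    intro w
    have h1 : w ∈ K0 ↔ w ∈ (↑(C ⊔ N0) : Set (FreeGroup (Fin m))) := Iff.rfl
    rw [h1, Subgroup.mul_normal]
    constructor
    · rintro ⟨c, hc, n, hn, e⟩; exact ⟨c, hc, n, hn, e⟩
    · rintro ⟨c, hc, n, hn, e⟩; exact ⟨c, hc, n, hn, e⟩
  have hgen : ∀ g ∈ G, ∀ w ∈ K0, g * w * g⁻¹ ∈ K0 := by
    intro g hg w hw
    obtain ⟨c, hc, n, hn, rfl⟩ := (hK0mem w).1 hw
    have e : g * (c * n) * g⁻¹ = (g * c * g⁻¹) * (g * n * g⁻¹) := by group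
    rw [e]
    refine K0.mul_mem ?_ (Subgroup.mem_sup_right (hN0.conj_mem _ hn g))
    have hc' : c ∈ Subgroup.closure (↑B : Set (FreeGroup (Fin m))) := hc
    clear hw e
    induction hc' using Subgroup.closure_induction with
    | mem b hb =>
      have h1 : g * b * g⁻¹ * (β (g * b * g⁻¹))⁻¹ ∈ N0 := Subgroup.subset_normalClosure
        (Finset.mem_coe.2 (Finset.mem_union_left _ (Finset.mem_union_right _
          (Finset.mem_image.2 ⟨(g, b), Finset.mem_product.2 ⟨hg, hb⟩, rfl⟩))))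
      have h2 := K0.mul_mem (Subgroup.mem_sup_right h1) (Subgroup.mem_sup_left (hβC (g * b * g⁻¹)))
      rwa [inv_mul_cancel_right] at h2
    | one => rw [mul_one, mul_inv_cancel]; exact K0.one_mem
    | mul a b ha' hb' ha hb =>
      have e : g * (a * b) * g⁻¹ = (g * a * g⁻¹) * (g * b * g⁻¹) := by group
      rw [e]; exact K0.mul_mem (ha ha') (hb hb')
    | inv a ha' ha =>
      have e : g * a⁻¹ * g⁻¹ = (g * a * g⁻¹)⁻¹ := by group
      rw [e]; exact K0.inv_mem (ha ha')
  have hK0n : K0.Normal := by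
    refine ⟨fun w hw g => ?_⟩
    revert w
    induction g using FreeGroup.induction_on with
    | C1 => intro w hw; rw [one_mul, inv_one, mul_one]; exact hw
    | of x =>
      intro w hw
      exact hgen _ (Finset.mem_union_left _ (Finset.mem_image.2 ⟨x, Finset.mem_univ _, rfl⟩)) w hw
    | inv_of x _ =>
      intro w hw
      exact hgen _ (Finset.mem_union_right _ (Finset.mem_image.2 ⟨x, Finset.mem_univ _, rfl⟩)) w hw
    | mul x y hx hy =>
      intro w hw
      have e : x * y * w * (x * y)⁻¹ = x * (y * w * y⁻¹) * x⁻¹ := by group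
      rw [e]; exact hx _ (hy w hw)
  have hKK0 : Kh ≤ K0 := by
    rw [hY]
    apply Subgroup.normalClosure_le_normal
    intro y hy
    have h1 : y * (β y)⁻¹ ∈ N0 := Subgroup.subset_normalClosure
      (Finset.mem_coe.2 (Finset.mem_union_right _ (Finset.mem_image.2 ⟨y, hy, rfl⟩)))
    have h2 := K0.mul_mem (Subgroup.mem_sup_right h1) (Subgroup.mem_sup_left (hβC y))
    rwa [inv_mul_cancel_right] at h2
  -- commutators
  have hc1 : ∀ z ∈ Z, ∀ w ∈ K0, w * z * w⁻¹ * z⁻¹ ∈ N0 := by
    intro z hz w hw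
    let q := QuotientGroup.mk' N0
    have hq : ∀ w, w ∈ N0 ↔ q w = 1 := fun w => (QuotientGroup.eq_one_iff w).symm
    have h1 : K0 ≤ (Subgroup.centralizer {q z}).comap q := by
      refine sup_le ?_ ?_
      · show Subgroup.closure _ ≤ _
        rw [Subgroup.closure_le]
        intro b hb
        show q b ∈ Subgroup.centralizer {q z}
        rw [Subgroup.mem_centralizer_singleton_iff]
        have h2 : b * z * b⁻¹ * z⁻¹ ∈ N0 := Subgroup.subset_normalClosure
          (Finset.mem_coe.2 (Finset.mem_union_left _ (Finset.mem_union_left _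
            (Finset.mem_image.2 ⟨(b, z), Finset.mem_product.2 ⟨hb, hz⟩, rfl⟩))))
        rw [hq, map_mul, map_mul, map_mul, map_inv, map_inv, mul_inv_eq_one] at h2
        exact mul_inv_eq_iff_eq_mul.1 h2
      · intro n hn
        show q n ∈ Subgroup.centralizer {q z}
        rw [(hq n).1 hn]; exact Subgroup.one_mem _
    have h3 : q w ∈ Subgroup.centralizer {q z} := h1 hw
    rw [Subgroup.mem_centralizer_singleton_iff] at h3
    rw [hq, map_mul, map_mul, map_mul, map_inv, map_inv, mul_inv_eq_one, mul_inv_eq_iff_eq_mul]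
    exact h3
  have hc2 : ⁅Kh, Nh⁆ ≤ N0 := by
    rw [Subgroup.commutator_le]
    intro a ha b hb
    have ha' := hKK0 ha
    -- the elements commuting with `K0` modulo `N0`
    let E : Subgroup (FreeGroup (Fin m)) :=
      (Subgroup.centralizer (↑(K0.map (QuotientGroup.mk' N0)) : Set (FreeGroup (Fin m) ⧸ N0))).comap
        (QuotientGroup.mk' N0)
    have hEn : E.Normal := by
      have h1 : (K0.map (QuotientGroup.mk' N0)).Normal :=
        hK0n.map _ (QuotientGroup.mk'_surjective N0)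
      have h2 : (Subgroup.centralizer
        (↑(K0.map (QuotientGroup.mk' N0)) : Set (FreeGroup (Fin m) ⧸ N0))).Normal := inferInstance
      exact h2.comap _
    have h3 : Nh ≤ E := by
      rw [hZ]
      apply Subgroup.normalClosure_le_normal
      intro z hz
      show QuotientGroup.mk' N0 z ∈ Subgroup.centralizer _
      rw [Subgroup.mem_centralizer_iff]
      rintro _ ⟨w, hw, rfl⟩
      have h4 := hc1 z hz w hw
      have h5 : QuotientGroup.mk' N0 (w * z * w⁻¹ * z⁻¹) = 1 := (QuotientGroup.eq_one_iff _).2 h4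
      rw [map_mul, map_mul, map_mul, map_inv, map_inv, mul_inv_eq_one] at h5
      exact mul_inv_eq_iff_eq_mul.1 h5
    have h4 : QuotientGroup.mk' N0 b ∈ Subgroup.centralizer _ := h3 hb
    rw [Subgroup.mem_centralizer_iff] at h4
    have h5 := h4 (QuotientGroup.mk' N0 a) ⟨a, ha', rfl⟩
    rw [commutatorElement_def]
    have h6 : QuotientGroup.mk' N0 (a * b * a⁻¹ * b⁻¹) = 1 := by
      rw [map_mul, map_mul, map_mul, map_inv, map_inv, mul_inv_eq_one, mul_inv_eq_iff_eq_mul]
      exact h5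
    exact (QuotientGroup.eq_one_iff _).1 h6
  -- conclusion
  obtain ⟨T, hT1, hT2⟩ := rel φ FreeGroup.of s hs (FreeGroup.closure_range_of _) hP
  refine ⟨m, φ, S0 ∪ T, fun p => ⟨s p, hs p⟩, le_antisymm ?_ ?_⟩
  · refine hT2.trans (sup_le ?_ ?_)
    · apply Subgroup.normalClosure_mono
      intro t ht
      exact Finset.mem_coe.2 (Finset.mem_union_right _ ht)
    · have h1 : ⁅φ.ker, φ.ker⁆ ≤ ⁅Kh, Nh⁆ := by
        apply Subgroup.commutator_mono
        · rw [← hD]; exact inf_le_left
        · rw [← hD]; exact inf_le_right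
      refine (h1.trans hc2).trans ?_
      apply Subgroup.normalClosure_mono
      intro t ht
      exact Finset.mem_coe.2 (Finset.mem_union_left _ ht)
  · apply Subgroup.normalClosure_le_normal
    intro t ht
    rcases Finset.mem_union.1 (Finset.mem_coe.1 ht) with ht | ht
    · exact hS0 t ht
    · exact hT1 t ht

end two

/-! ### the induction -/

section ind
variable {ι : Type} [DecidableEq ι] {Γ : ι → Type} [∀ i, Group (Γ i)]

theorem vsc_pres : ∀ (s : ℕ) (I : Finset ι) (P : Subgroup (∀ i, Γ i)), I.card = s → Supp I P →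
    VSur 2 I P → CN I P → (∀ i ∈ I, FPg 2 (Γ i)) → (∀ i ∈ I, FPres (Γ i)) → FPres P := by
  intro s
  induction s with
  | zero =>
    intro I P hI hs _ _ _ _
    have h0 : I = ∅ := Finset.card_eq_zero.1 hI
    have : Subsingleton P := by
      refine ⟨fun a b => Subtype.ext (funext fun i => ?_)⟩
      rw [hs a.1 a.2 i (by rw [h0]; exact Finset.notMem_empty _),
        hs b.1 b.2 i (by rw [h0]; exact Finset.notMem_empty _)]
    exact FPres.of_finite P
  | succ s ih =>
    intro I P hI hs hv hc hΓ hΓ'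
    obtain ⟨m, hm⟩ : I.Nonempty := by
      rw [← Finset.card_pos, hI]; omega
    have hI' : (I.erase m).card = s := by
      rw [Finset.card_erase_of_mem hm, hI]; rfl
    have hE : FPres (P.map (ev m)) := by
      have h1 := hv m hm ∅ (Finset.empty_subset _) (Finset.notMem_empty _) (by simp)
      rw [KS_empty] at h1
      exact FPres.subgroup (hΓ' m hm) _
    have hE' : FPres (P ⧸ ((KS P {m}).subgroupOf P)) := by
      refine FPres.quot hE (eqvE P m).symm.toMonoidHom (eqvE P m).symm.surjective ∅ ?_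
      rw [Finset.coe_empty, Subgroup.normalClosure_empty]
      exact (MonoidHom.ker_eq_bot_iff _).2 (eqvE P m).symm.injective
    have hT : FPres (P.map (proj (I.erase m))) :=
      ih (I.erase m) _ hI' (supp_proj _ _) (vs_proj hv) (cn_proj hc)
        (fun i hi => hΓ i (Finset.mem_of_mem_erase hi))
        (fun i hi => hΓ' i (Finset.mem_of_mem_erase hi))
    have hT' : FPres (P ⧸ ((KS P (I.erase m)).subgroupOf P)) := by
      refine FPres.quot hT (eqvP P _).symm.toMonoidHom (eqvP P _).symm.surjective ∅ ?_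
      rw [Finset.coe_empty, Subgroup.normalClosure_empty]
      exact (MonoidHom.ker_eq_bot_iff _).2 (eqvP P _).symm.injective
    have hP : FPg 2 P := vsc_aux (s + 1) 2 I P hI hs hv hc hΓ
    have hK : FPg 1 (KS P {m}) :=
      vsc_aux s 1 (I.erase m) _ hI' (supp_ker hs) (vs_ker hm hv) (cn_ker hm hc)
        (fun i hi => (hΓ i (Finset.mem_of_mem_erase hi)).mono (by omega))
    have hK' : FPg 1 ((KS P {m}).subgroupOf P) :=
      hK.congr (Subgroup.subgroupOfEquivOfLe (KS_le P _)).symm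
    exact fpres_two _ _ (inf_bot P hs) ((Group.fg_iff_subgroup_fg _).1 hK'.fg) hE' hT'
      (hP.mono (by omega : 1 ≤ 2)).fg hP

end ind

end Pool.Agent.TH18.VS
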