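import Pool.Agent.TH18.NN.Final
import Pool.Agent.TH18.NN.Pres

/-! Groups of type `FP_n`: passage to subgroups of finite index and extensions. -/

set_option autoImplicit false

namespace Pool.Agent.TH18.VS

open Pool.Agent.W326.DU (IL ZG)
open Pool.Agent.W571.DU
open Pool.Agent.TH18
open Pool.Agent.TH18.NN

/-- The group `G` is of type `FP_n` over the integers. -/
def FPg (n : ℕ) (G : Type) [Group G] : Prop := FPm (ZG G) n (Tr G)

section infl
variable {G H : Type} [Group G] [Group H] (φ : G →* H)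

theorem FPg.infl {n : ℕ} (h : FPm (ZG G) n (Infl (push φ) (ZG H))) (hH : FPg n H) : FPg n G := by
  have h1 := infl_fp (push φ) h hH
  let e : Infl (push φ) (Tr H) ≃ₗ[ZG G] Tr G :=
    { toFun := fun x => x
      invFun := fun x => x
      left_inv := fun _ => rfl
      right_inv := fun _ => rfl
      map_add' := fun _ _ => rfl
      map_smul' := by
        intro c x
        show augR H (push φ c) * (show ℤ from x) = augR G c * (show ℤ from x)
        rw [augR_push] }
  exact h1.equiv e

/-- coefficient functions on right cosets -/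
noncomputable def pr (hφ : Function.Injective φ) (t : H) : ZG H →+ ZG G :=
  MonoidAlgebra.comapDomainAddMonoidHom (fun g : G => φ g * t)
    (fun _ _ hab => hφ (mul_right_cancel hab))

theorem pr_coeff (hφ : Function.Injective φ) (t : H) (x : ZG H) (g : G) :
    (pr φ hφ t x).coeff g = x.coeff (φ g * t) := rfl

theorem pr_self (hφ : Function.Injective φ) (t : H) (y : ZG G) :
    pr φ hφ t (push φ y * MonoidAlgebra.of ℤ H t) = y := by
  apply MonoidAlgebra.ext
  ext g
  rw [pr_coeff, MonoidAlgebra.of_apply, MonoidAlgebra.coeff_mul_single_apply, mul_inv_cancel_right,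
    mul_one]
  show (MonoidAlgebra.mapDomainRingHom ℤ φ y).coeff (φ g) = _
  exact Finsupp.mapDomain_apply hφ _ _

theorem pr_other (hφ : Function.Injective φ) (t t' : H) (h : t * t'⁻¹ ∉ φ.range) (y : ZG G) :
    pr φ hφ t (push φ y * MonoidAlgebra.of ℤ H t') = 0 := by
  apply MonoidAlgebra.ext
  ext g
  rw [pr_coeff, MonoidAlgebra.of_apply, MonoidAlgebra.coeff_mul_single_apply, mul_one]
  show (MonoidAlgebra.mapDomainRingHom ℤ φ y).coeff (φ g * t * t'⁻¹) = 0
  apply Finsupp.mapDomain_of_notMem_range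
  rintro ⟨g', hg'⟩
  apply h
  exact ⟨g⁻¹ * g', by rw [map_mul, hg', map_inv]; group⟩

/-- restriction of the free module of rank one to a subgroup of finite index -/
noncomputable def resMap [Fintype (H ⧸ φ.range)] :
    ((H ⧸ φ.range) → ZG G) →ₗ[ZG G] Infl (push φ) (ZG H) where
  toFun x := (show ZG H from ∑ q, push φ (x q) * MonoidAlgebra.of ℤ H (q.out)⁻¹)
  map_add' x y := by
    show (∑ q, push φ ((x + y) q) * MonoidAlgebra.of ℤ H (q.out)⁻¹ : ZG H) =
      (∑ q, push φ (x q) * MonoidAlgebra.of ℤ H (q.out)⁻¹) +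
        ∑ q, push φ (y q) * MonoidAlgebra.of ℤ H (q.out)⁻¹
    rw [← Finset.sum_add_distrib]
    refine Finset.sum_congr rfl fun q _ => ?_
    rw [Pi.add_apply, map_add, add_mul]
  map_smul' c x := by
    show (∑ q, push φ ((c • x) q) * MonoidAlgebra.of ℤ H (q.out)⁻¹ : ZG H) =
      push φ c * ∑ q, push φ (x q) * MonoidAlgebra.of ℤ H (q.out)⁻¹
    rw [Finset.mul_sum]
    refine Finset.sum_congr rfl fun q _ => ?_
    rw [Pi.smul_apply, smul_eq_mul, map_mul, mul_assoc]

theorem resMap_apply [Fintype (H ⧸ φ.range)] (x : (H ⧸ φ.range) → ZG G) :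
    resMap φ x = (show ZG H from ∑ q, push φ (x q) * MonoidAlgebra.of ℤ H (q.out)⁻¹) := rfl

theorem resMap_inj (hφ : Function.Injective φ) [Fintype (H ⧸ φ.range)] :
    Function.Injective (resMap φ) := by
  rw [injective_iff_map_eq_zero]
  intro x hx
  rw [resMap_apply] at hx
  have hx' : (∑ q, push φ (x q) * MonoidAlgebra.of ℤ H (q.out)⁻¹ : ZG H) = 0 := hx
  funext q0
  have h1 := congrArg (pr φ hφ (q0.out)⁻¹) hx'
  rw [map_sum, map_zero, Finset.sum_eq_single q0] at h1
  · rw [pr_self] at h1
    exact h1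
  · intro q _ hq
    apply pr_other
    intro h2
    apply hq
    rw [inv_inv] at h2
    have h3 : (QuotientGroup.mk q0.out : H ⧸ φ.range) = QuotientGroup.mk q.out := by
      rw [QuotientGroup.eq]; exact h2
    rw [QuotientGroup.out_eq', QuotientGroup.out_eq'] at h3
    exact h3.symm
  · intro h; exact absurd (Finset.mem_univ _) h

theorem resMap_surj [Fintype (H ⧸ φ.range)] : Function.Surjective (resMap φ) := by
  classical
  intro y
  rw [← LinearMap.mem_range]
  have key : ∀ y : ZG H, (show Infl (push φ) (ZG H) from y) ∈ LinearMap.range (resMap φ) := by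
    intro y
    induction y using MonoidAlgebra.induction_on with
    | of h =>
      obtain ⟨g, hg⟩ : (QuotientGroup.mk (h⁻¹) : H ⧸ φ.range).out⁻¹ * h⁻¹ ∈ φ.range := by
        rw [← QuotientGroup.eq, QuotientGroup.out_eq']
      refine ⟨Pi.single (QuotientGroup.mk (h⁻¹)) (MonoidAlgebra.of ℤ G g⁻¹), ?_⟩
      rw [resMap_apply]
      show (∑ q, push φ ((Pi.single (QuotientGroup.mk (h⁻¹)) (MonoidAlgebra.of ℤ G g⁻¹) :
        (H ⧸ φ.range) → ZG G) q) * MonoidAlgebra.of ℤ H (q.out)⁻¹ : ZG H) = MonoidAlgebra.of ℤ H h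
      rw [Finset.sum_eq_single (QuotientGroup.mk (h⁻¹))]
      · rw [Pi.single_eq_same, push_of, ← map_mul]
        congr 1
        rw [map_inv, hg]; group
      · intro q _ hq
        rw [Pi.single_eq_of_ne hq, map_zero, zero_mul]
      · intro h; exact absurd (Finset.mem_univ _) h
    | add a b ha hb => exact Submodule.add_mem _ ha hb
    | smul r a ha =>
      obtain ⟨z, hz⟩ := ha
      refine ⟨r • z, ?_⟩
      rw [map_zsmul, hz]
      rfl
  exact key y

theorem res_free (hφ : Function.Injective φ) [φ.range.FiniteIndex] (n : ℕ) :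
    FPm (ZG G) n (Infl (push φ) (ZG H)) := by
  classical
  have : Finite (H ⧸ φ.range) := Subgroup.finite_quotient_of_finiteIndex
  have : Fintype (H ⧸ φ.range) := Fintype.ofFinite _
  have e1 : (Fin (Fintype.card (H ⧸ φ.range)) → ZG G) ≃ₗ[ZG G] ((H ⧸ φ.range) → ZG G) :=
    LinearEquiv.funCongrLeft (ZG G) (ZG G) (Fintype.equivFin (H ⧸ φ.range))
  exact (FPm.free n _).equiv (e1.trans (LinearEquiv.ofBijective (resMap φ)
    ⟨resMap_inj φ hφ, resMap_surj φ⟩))

theorem FPg.of_injective {n : ℕ} (hφ : Function.Injective φ) [φ.range.FiniteIndex]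
    (hH : FPg n H) : FPg n G := FPg.infl φ (res_free φ hφ n) hH

end infl

theorem FPg.subgroup {n : ℕ} {H : Type} [Group H] (K : Subgroup H) [K.FiniteIndex]
    (hH : FPg n H) : FPg n K := by
  have : K.subtype.range.FiniteIndex := by rw [Subgroup.range_subtype]; infer_instance
  exact FPg.of_injective K.subtype Subtype.val_injective hH

theorem FPg.congr {n : ℕ} {G H : Type} [Group G] [Group H] (e : G ≃* H) (hG : FPg n G) :
    FPg n H := by
  have : e.symm.toMonoidHom.range.FiniteIndex := by
    have : e.symm.toMonoidHom.range = ⊤ := MonoidHom.range_eq_top.2 e.symm.surjective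
    rw [this]; infer_instance
  exact FPg.of_injective e.symm.toMonoidHom e.symm.injective hG

theorem FPg.mono {n m : ℕ} (h : m ≤ n) {G : Type} [Group G] (hG : FPg n G) : FPg m G :=
  FPm.mono h hG

theorem FPg.zero (G : Type) [Group G] : FPg 0 G := by
  show Module.Finite (ZG G) (Tr G)
  exact Module.Finite.of_surjective (augL G) (augL_surj G)

/-- extensions -/
theorem FPg.ext {n : ℕ} {N G Q : Type} [Group N] [Group G] [Group Q] (ι : N →* G)
    (hι : Function.Injective ι) (π : G →* Q) (hπ : Function.Surjective π)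
    (hker : ∀ g, π g = 1 ↔ ∃ ν, ι ν = g) (hN : FPg n N) (hQ : FPg n Q) : FPg n G := by
  cases n with
  | zero => exact FPg.zero G
  | succ n =>
    obtain ⟨F⟩ := fpm_res hN
    exact FPg.infl π (zq_fp ι hι π hπ hker F) hQ

theorem FPg.extN {n : ℕ} {G : Type} [Group G] (N : Subgroup G) [N.Normal] (hN : FPg n N)
    (hQ : FPg n (G ⧸ N)) : FPg n G :=
  FPg.ext N.subtype Subtype.val_injective (QuotientGroup.mk' N) (QuotientGroup.mk'_surjective N)
    (fun g => by
      rw [QuotientGroup.mk'_apply, QuotientGroup.eq_one_iff]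
      exact ⟨fun h => ⟨⟨g, h⟩, rfl⟩, by rintro ⟨ν, rfl⟩; exact ν.2⟩) hN hQ

end Pool.Agent.TH18.VS
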