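import Pool.Agent.TH18.VS.Main

/-! Groups with two normal subgroups that intersect trivially. -/

set_option autoImplicit false

namespace Pool.Agent.TH18.VS

open Pool.Agent.W326.DU (IL ZG)
open Pool.Agent.W490.DU (of_sub_mem_IL IL_le)
open Pool.Agent.W571.DU
open Pool.Agent.TH18
open Pool.Agent.TH18.NN

theorem FPg.of_fg (G : Type) [Group G] [Group.FG G] : FPg 1 G := by
  obtain ⟨r, q, hq⟩ := fg_gens G
  have hcl : Subgroup.closure (Set.range q) = ⊤ := by
    rw [eq_top_iff]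
    intro g _
    obtain ⟨l, rfl⟩ := hq g
    apply Subgroup.list_prod_mem
    intro x hx
    obtain ⟨i, _, rfl⟩ := List.mem_map.1 hx
    exact Subgroup.subset_closure ⟨i, rfl⟩
  have h1 := fq_range q hcl
  refine FPm.of_ker (augL G) (augL_surj G) ?_ ?_
  · exact (FPm.free 1 1).equiv (LinearEquiv.funUnique (Fin 1) (ZG G) (ZG G))
  · rw [← h1]
    show Module.Finite _ _
    infer_instance

theorem FPg.fg {G : Type} [Group G] (h : FPg 1 G) : Group.FG G := by
  classical
  have h1 : FPm (ZG G) 0 (LinearMap.ker (augL G)) := by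
    refine FPm.ker (augL G) (augL_surj G) ?_ h
    exact (FPm.free 0 1).equiv (LinearEquiv.funUnique (Fin 1) (ZG G) (ZG G))
  have h2 : (LinearMap.ker (augL G)).FG := Module.Finite.iff_fg.1 h1
  obtain ⟨S, hS⟩ := h2
  have h3 : ∀ x : ZG G, ∃ T : Finset G, x ∈ S → x ∈ IL ℤ (T : Set G) := by
    intro x
    by_cases hx : x ∈ S
    · have h4 : x ∈ LinearMap.ker (augL G) := by
        rw [← hS]; exact Submodule.subset_span hx
      rw [ker_augL] at h4
      obtain ⟨T, _, hT⟩ := IL_finite _ _ h4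
      exact ⟨T, fun _ => hT⟩
    · exact ⟨∅, fun h => absurd h hx⟩
  choose T hT using h3
  refine ⟨⟨S.biUnion T, ?_⟩⟩
  rw [eq_top_iff]
  intro g _
  apply mem_closure_of_sub
  have h5 : MonoidAlgebra.of ℤ G g - 1 ∈ LinearMap.ker (augL G) := by
    show augR G (MonoidAlgebra.of ℤ G g - 1) = 0
    rw [map_sub, augR_of, map_one, sub_self]
  rw [← hS] at h5
  refine Submodule.span_le.2 ?_ h5
  intro x hx
  have h6 := hT x hx
  refine IL_le ℤ ?_ h6
  intro t ht
  exact Subgroup.subset_closure (Finset.mem_coe.2 (Finset.mem_biUnion.2 ⟨x, hx, ht⟩))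

/-- virtually nilpotent groups -/
theorem virt_nil (Q : Type) [Group Q] [Group.FG Q] (W : Subgroup Q) [W.FiniteIndex]
    [Group.IsNilpotent W] : FPres Q ∧ ∀ n, FPg n Q := by
  let C := W.normalCore
  have hle : C ≤ W := Subgroup.normalCore_le W
  have hCf : C.FiniteIndex := inferInstance
  have hCn : Group.IsNilpotent C := by
    have : Group.IsNilpotent (C.subgroupOf W) := inferInstance
    exact Group.nilpotent_of_mulEquiv (Subgroup.subgroupOfEquivOfLe hle)
  have hfg : Group.FG C := inferInstance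
  obtain ⟨h1, h2⟩ := nil_main C hfg
  have hfin : Finite (Q ⧸ C) := Subgroup.finite_quotient_of_finiteIndex
  have hker : ∀ g, QuotientGroup.mk' C g = 1 ↔ ∃ ν, C.subtype ν = g := fun g => by
    rw [QuotientGroup.mk'_apply, QuotientGroup.eq_one_iff]
    exact ⟨fun h => ⟨⟨g, h⟩, rfl⟩, by rintro ⟨ν, rfl⟩; exact ν.2⟩
  exact ⟨FPres.ext C.subtype Subtype.val_injective (QuotientGroup.mk' C)
      (QuotientGroup.mk'_surjective C) hker h1 (FPres.of_finite _),
    fun n => FPg.extN C (h2 n) (FPg.of_finite _ n)⟩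

section two
variable {P : Type} [Group P] (K N : Subgroup P) [K.Normal] [N.Normal]

/-- commuting normal subgroups: finite generation -/
theorem fg_two (hKN : K ⊓ N = ⊥) [Group.FG (P ⧸ K)] [Group.FG (P ⧸ N)]
    (hQ : FPres (P ⧸ (K ⊔ N))) : Group.FG P := by
  classical
  have hcomm : ∀ k ∈ K, ∀ n ∈ N, k * n = n * k := by
    intro k hk n hn
    have h1 : k * n * k⁻¹ * n⁻¹ ∈ K ⊓ N := by
      constructor
      · have := (inferInstance : K.Normal).conj_mem _ (K.inv_mem hk) n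
        have e : k * n * k⁻¹ * n⁻¹ = k * (n * k⁻¹ * n⁻¹) := by group
        rw [e]; exact K.mul_mem hk this
      · have := (inferInstance : N.Normal).conj_mem _ hn k
        exact N.mul_mem this (N.inv_mem hn)
    rw [hKN, Subgroup.mem_bot] at h1
    have h2 : k * n * k⁻¹ = n := by rw [← mul_inv_eq_one]; exact h1
    calc k * n = k * n * k⁻¹ * k := by group
      _ = n * k := by rw [h2]
  -- generators of the quotients
  obtain ⟨S1, hS1⟩ := (inferInstance : Group.FG (P ⧸ K)).1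
  obtain ⟨S2, hS2⟩ := (inferInstance : Group.FG (P ⧸ N)).1
  obtain ⟨c1, hc1⟩ := (QuotientGroup.mk'_surjective K).hasRightInverse
  obtain ⟨c2, hc2⟩ := (QuotientGroup.mk'_surjective N).hasRightInverse
  -- the image of `N` in `P ⧸ K` is the normal closure of a finite set
  let π : P ⧸ K →* P ⧸ (K ⊔ N) := QuotientGroup.map K (K ⊔ N) (MonoidHom.id P) (by
    intro x hx; exact Subgroup.mem_sup_left hx)
  have hπ : Function.Surjective π := by
    intro x
    obtain ⟨x, rfl⟩ := QuotientGroup.mk'_surjective _ x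
    exact ⟨QuotientGroup.mk' K x, rfl⟩
  obtain ⟨A, hA⟩ := ker_fg' hQ π hπ
  have hπN : π.ker = N.map (QuotientGroup.mk' K) := by
    ext x
    obtain ⟨x, rfl⟩ := QuotientGroup.mk'_surjective _ x
    rw [MonoidHom.mem_ker, Subgroup.mem_map]
    constructor
    · intro hx
      have h1 : x ∈ K ⊔ N := (QuotientGroup.eq_one_iff x).1 hx
      have h1' : x ∈ (↑(K ⊔ N) : Set P) := h1
      rw [Subgroup.normal_mul] at h1'
      obtain ⟨k, hk, n, hn, rfl⟩ := h1'
      refine ⟨n, hn, ?_⟩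
      show _ = QuotientGroup.mk' K (k * n)
      rw [map_mul]
      have : QuotientGroup.mk' K k = 1 := (QuotientGroup.eq_one_iff k).2 hk
      rw [this, one_mul]
    · rintro ⟨n, hn, hnx⟩
      rw [← hnx]
      exact (QuotientGroup.eq_one_iff n).2 (Subgroup.mem_sup_right hn)
  -- lifts of `A` to `N`
  have hA2 : ∀ a : P ⧸ K, ∃ n : P, a ∈ A → n ∈ N ∧ QuotientGroup.mk' K n = a := by
    intro a
    by_cases ha : a ∈ A
    · have : a ∈ π.ker := by rw [hA]; exact Subgroup.subset_normalClosure ha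
      rw [hπN] at this
      obtain ⟨n, hn, h⟩ := this
      exact ⟨n, fun _ => ⟨hn, h⟩⟩
    · exact ⟨1, fun h => absurd h ha⟩
  choose c3 hc3 using hA2
  let S : Finset P := S1.image c1 ∪ S2.image c2 ∪ A.image c3
  refine ⟨⟨S, ?_⟩⟩
  let P0 := Subgroup.closure (↑S : Set P)
  show P0 = ⊤
  have h1 : P0.map (QuotientGroup.mk' K) = ⊤ := by
    rw [eq_top_iff, ← hS1, Subgroup.closure_le]
    intro x hx
    exact ⟨c1 x, Subgroup.subset_closure (Finset.mem_coe.2 (Finset.mem_union_left _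
      (Finset.mem_union_left _ (Finset.mem_image.2 ⟨x, hx, rfl⟩)))), hc1 x⟩
  have h2 : P0.map (QuotientGroup.mk' N) = ⊤ := by
    rw [eq_top_iff, ← hS2, Subgroup.closure_le]
    intro x hx
    exact ⟨c2 x, Subgroup.subset_closure (Finset.mem_coe.2 (Finset.mem_union_left _
      (Finset.mem_union_right _ (Finset.mem_image.2 ⟨x, hx, rfl⟩)))), hc2 x⟩
  -- `N ⊓ P0` is normal
  have h3 : (N ⊓ P0).Normal := by
    refine ⟨fun n hn g => ?_⟩
    have hg : QuotientGroup.mk' K g ∈ P0.map (QuotientGroup.mk' K) := by rw [h1]; trivial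
    obtain ⟨p, hp, hpg⟩ := hg
    have hk : p⁻¹ * g ∈ K := QuotientGroup.eq.1 hpg
    have h4 : g * n * g⁻¹ = p * n * p⁻¹ := by
      have h5 := hcomm _ hk _ hn.1
      have : g = p * (p⁻¹ * g) := by group
      rw [this, mul_inv_rev]
      calc p * (p⁻¹ * g) * n * ((p⁻¹ * g)⁻¹ * p⁻¹) = p * ((p⁻¹ * g) * n) * ((p⁻¹ * g)⁻¹ * p⁻¹) := by
            group
        _ = p * n * p⁻¹ := by rw [h5]; group
    rw [h4]
    refine ⟨?_, P0.mul_mem (P0.mul_mem hp hn.2) (P0.inv_mem hp)⟩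
    exact (inferInstance : N.Normal).conj_mem _ hn.1 p
  have h4 : ∀ n ∈ N, ∃ m ∈ N ⊓ P0, QuotientGroup.mk' K m = QuotientGroup.mk' K n := by
    intro n hn
    have h5 : QuotientGroup.mk' K n ∈ Subgroup.normalClosure (↑A : Set (P ⧸ K)) := by
      rw [← hA, hπN]; exact ⟨n, hn, rfl⟩
    have h6 : Subgroup.normalClosure (↑A : Set (P ⧸ K)) ≤ (N ⊓ P0).map (QuotientGroup.mk' K) := by
      have : ((N ⊓ P0).map (QuotientGroup.mk' K)).Normal :=
        h3.map _ (QuotientGroup.mk'_surjective K)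
      apply Subgroup.normalClosure_le_normal
      intro a ha
      obtain ⟨h7, h8⟩ := hc3 a ha
      exact ⟨c3 a, ⟨h7, Subgroup.subset_closure (Finset.mem_coe.2 (Finset.mem_union_right _
        (Finset.mem_image.2 ⟨a, ha, rfl⟩)))⟩, h8⟩
    exact h6 h5
  have h5 : N ≤ P0 := by
    intro n hn
    obtain ⟨m, hm, hmn⟩ := h4 n hn
    have h6 : m⁻¹ * n ∈ K ⊓ N := ⟨QuotientGroup.eq.1 hmn, N.mul_mem (N.inv_mem hm.1) hn⟩
    rw [hKN, Subgroup.mem_bot] at h6
    have : n = m := by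
      have := eq_of_inv_mul_eq_one h6
      exact this.symm
    rw [this]; exact hm.2
  rw [eq_top_iff]
  intro g _
  have hg : QuotientGroup.mk' N g ∈ P0.map (QuotientGroup.mk' N) := by rw [h2]; trivial
  obtain ⟨p, hp, hpg⟩ := hg
  have h6 : p⁻¹ * g ∈ N := QuotientGroup.eq.1 hpg
  have h7 := P0.mul_mem hp (h5 h6)
  rwa [mul_inv_cancel_left] at h7

/-- the fibre product description -/
theorem fib {n : ℕ} (hKN : K ⊓ N = ⊥) (hK : FPg (n + 1) K) (hT : FPg (n + 2) (P ⧸ N))
    (hG : FPg (n + 2) (P ⧸ K)) (hQ : FPg (n + 3) (P ⧸ (K ⊔ N))) (hpQ : FPres (P ⧸ (K ⊔ N))) :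
    FPg (n + 2) P := by
  have hfg : Group.FG (P ⧸ K) := (hG.mono (by omega : 1 ≤ n + 2)).fg
  let π₁ : P ⧸ N →* P ⧸ (K ⊔ N) := QuotientGroup.map N (K ⊔ N) (MonoidHom.id P) (by
    intro x hx; exact Subgroup.mem_sup_right hx)
  let π₂ : P ⧸ K →* P ⧸ (K ⊔ N) := QuotientGroup.map K (K ⊔ N) (MonoidHom.id P) (by
    intro x hx; exact Subgroup.mem_sup_left hx)
  have h1 : Function.Surjective π₁ := by
    intro x
    obtain ⟨x, rfl⟩ := QuotientGroup.mk'_surjective _ x
    exact ⟨QuotientGroup.mk' N x, rfl⟩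
  have h2 : Function.Surjective π₂ := by
    intro x
    obtain ⟨x, rfl⟩ := QuotientGroup.mk'_surjective _ x
    exact ⟨QuotientGroup.mk' K x, rfl⟩
  -- the kernel of `π₁`
  let e0 : K →* π₁.ker := ((QuotientGroup.mk' N).comp K.subtype).codRestrict π₁.ker (by
    intro k
    exact (QuotientGroup.eq_one_iff k.1).2 (Subgroup.mem_sup_left k.2))
  have he0 : Function.Bijective e0 := by
    constructor
    · intro a b hab
      have h3 : (QuotientGroup.mk a.1 : P ⧸ N) = QuotientGroup.mk b.1 := congrArg Subtype.val hab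
      have h4 : a.1⁻¹ * b.1 ∈ K ⊓ N := ⟨K.mul_mem (K.inv_mem a.2) b.2, QuotientGroup.eq.1 h3⟩
      rw [hKN, Subgroup.mem_bot] at h4
      exact Subtype.ext (eq_of_inv_mul_eq_one h4)
    · rintro ⟨x, hx⟩
      obtain ⟨x, rfl⟩ := QuotientGroup.mk'_surjective _ x
      have h3 : x ∈ K ⊔ N := (QuotientGroup.eq_one_iff x).1 hx
      have h3' : x ∈ (↑(K ⊔ N) : Set P) := h3
      rw [Subgroup.normal_mul] at h3'
      obtain ⟨k, hk, n, hn, hx'⟩ := h3'
      refine ⟨⟨k, hk⟩, Subtype.ext ?_⟩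
      show (QuotientGroup.mk k : P ⧸ N) = QuotientGroup.mk x
      rw [QuotientGroup.eq, ← hx']
      show k⁻¹ * (k * n) ∈ N
      rw [inv_mul_cancel_left]; exact hn
  have hK' : FPg (n + 1) π₁.ker := hK.congr (MulEquiv.ofBijective e0 he0)
  obtain ⟨F⟩ := fpm_res hK'
  have h5 : FPg (n + 2) (FibP π₁ π₂) := main' π₁ π₂ h1 h2 F hT hG hQ hpQ
  let e1 : P →* FibP π₁ π₂ := ((QuotientGroup.mk' N).prod (QuotientGroup.mk' K)).codRestrict _ (by
    intro x
    rfl)
  have he1 : Function.Bijective e1 := by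
    constructor
    · intro a b hab
      have h3 : (QuotientGroup.mk a : P ⧸ N) = QuotientGroup.mk b :=
        congrArg (fun z : FibP π₁ π₂ => z.1.1) hab
      have h3' : (QuotientGroup.mk a : P ⧸ K) = QuotientGroup.mk b :=
        congrArg (fun z : FibP π₁ π₂ => z.1.2) hab
      have h4 : a⁻¹ * b ∈ K ⊓ N := ⟨QuotientGroup.eq.1 h3', QuotientGroup.eq.1 h3⟩
      rw [hKN, Subgroup.mem_bot] at h4
      exact eq_of_inv_mul_eq_one h4
    · rintro ⟨⟨x, y⟩, hxy⟩
      obtain ⟨x, rfl⟩ := QuotientGroup.mk'_surjective _ x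
      obtain ⟨y, rfl⟩ := QuotientGroup.mk'_surjective _ y
      have h3 : (QuotientGroup.mk x : P ⧸ (K ⊔ N)) = QuotientGroup.mk y := hxy
      have h4 : x⁻¹ * y ∈ (↑(K ⊔ N) : Set P) := QuotientGroup.eq.1 h3
      rw [sup_comm, Subgroup.normal_mul] at h4
      obtain ⟨n, hn, k, hk, hx'⟩ := h4
      have hx'' : n * k = x⁻¹ * y := hx'
      refine ⟨x * n, Subtype.ext (Prod.ext ?_ ?_)⟩
      · show (QuotientGroup.mk (x * n) : P ⧸ N) = QuotientGroup.mk x
        rw [QuotientGroup.eq]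
        have : (x * n)⁻¹ * x = n⁻¹ := by group
        rw [this]; exact N.inv_mem hn
      · show (QuotientGroup.mk (x * n) : P ⧸ K) = QuotientGroup.mk y
        rw [QuotientGroup.eq]
        have : (x * n)⁻¹ * y = n⁻¹ * (x⁻¹ * y) := by group
        rw [this, ← hx'', inv_mul_cancel_left]; exact hk
  exact h5.congr (MulEquiv.ofBijective e1 he1).symm

end two

end Pool.Agent.TH18.VS
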