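import Pool.Agent.TH18.VS.Nil

/-! Fibre products: the main theorem with a finitely generated second factor. -/

set_option autoImplicit false

namespace Pool.Agent.TH18.VS

open Pool.Agent.W326.DU (IL ZG)
open Pool.Agent.W571.DU
open Pool.Agent.TH18
open Pool.Agent.TH18.NN

/-- monoid generators -/
theorem fg_gens (G : Type) [Group G] [Group.FG G] : ∃ (r : ℕ) (q : Fin r → G),
    ∀ g, ∃ l : List (Fin r), g = (l.map q).prod := by
  classical
  obtain ⟨m, f, hf⟩ := fg_surj G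
  let q0 : Fin m ⊕ Fin m → G := Sum.elim (fun i => f (FreeGroup.of i)) (fun i => (f (FreeGroup.of i))⁻¹)
  have h1 : ∀ w, ∃ l : List (Fin m ⊕ Fin m), f w = (l.map q0).prod := by
    intro w
    induction w using FreeGroup.induction_on with
    | C1 => exact ⟨[], by rw [map_one]; rfl⟩
    | of x => exact ⟨[Sum.inl x], by simp [q0]⟩
    | inv_of x _ => exact ⟨[Sum.inr x], by simp [q0]⟩
    | mul x y hx hy =>
      obtain ⟨l, hl⟩ := hx
      obtain ⟨l', hl'⟩ := hy
      exact ⟨l ++ l', by rw [map_mul, hl, hl', List.map_append, List.prod_append]⟩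
  let e := Fintype.equivFin (Fin m ⊕ Fin m)
  refine ⟨_, q0 ∘ e.symm, fun g => ?_⟩
  obtain ⟨w, rfl⟩ := hf g
  obtain ⟨l, hl⟩ := h1 w
  refine ⟨l.map e, ?_⟩
  rw [hl, List.map_map]
  congr 1
  apply List.map_congr_left
  intro x _
  simp

section main
variable {Γ₁ Γ₂ Q : Type} [Group Γ₁] [Group Γ₂] [Group Q] (π₁ : Γ₁ →* Q) (π₂ : Γ₂ →* Q)

/-- **Main theorem.** -/
theorem main' {n : ℕ} (h1 : Function.Surjective π₁) (h2 : Function.Surjective π₂)
    (F : NRes π₁.ker (n + 1)) (hG1 : FPm (ZG Γ₁) (n + 2) (Tr Γ₁))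
    (hG2 : FPm (ZG Γ₂) (n + 2) (Tr Γ₂)) (hQ : FPm (ZG Q) (n + 3) (Tr Q))
    [Group.FG Γ₂] (hpQ : FPres Q) :
    FPm (ZG (FibP π₁ π₂)) (n + 2) (Tr (FibP π₁ π₂)) := by
  classical
  -- generators
  obtain ⟨r, q, hq⟩ := fg_gens Γ₂
  choose s hs using fun i => p2_surj π₁ π₂ h1 (q i)
  have hgen : ∀ g : FibP π₁ π₂, ∃ (l : List (Fin r)) (ν : π₁.ker), g = (l.map s).prod * iN π₁ π₂ ν := by
    intro g
    obtain ⟨l, hl⟩ := hq (p2 π₁ π₂ g)
    have h3 : p2 π₁ π₂ ((l.map s).prod⁻¹ * g) = 1 := by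
      rw [map_mul, map_inv, map_list_prod, List.map_map, hl]
      have : (⇑(p2 π₁ π₂) ∘ s) = q := funext hs
      rw [this, inv_mul_cancel]
    obtain ⟨ν, hν⟩ := (p2_ker π₁ π₂ _).1 h3
    exact ⟨l, ν, by rw [hν, mul_inv_cancel_left]⟩
  have hN := normal_of (iN π₁ π₂) (p2 π₁ π₂) (p2_ker π₁ π₂)
  let Φ : ∀ i, CM (iN π₁ π₂) F (s i) := fun i => cm (iN π₁ π₂) F hN (iN_inj π₁ π₂) (s i)
  -- closures
  have hcl2 : Subgroup.closure (Set.range (fun i => p2 π₁ π₂ (s i))) = ⊤ := by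
    rw [eq_top_iff]
    intro g _
    obtain ⟨l, rfl⟩ := hq g
    apply Subgroup.list_prod_mem
    intro x hx
    obtain ⟨i, _, rfl⟩ := List.mem_map.1 hx
    exact Subgroup.subset_closure ⟨i, hs i⟩
  have hcl1 : Subgroup.closure (Set.range (fun i => π₁ (p1 π₁ π₂ (s i)))) = ⊤ := by
    rw [eq_top_iff]
    intro g _
    obtain ⟨g', rfl⟩ := h2 g
    obtain ⟨l, rfl⟩ := hq g'
    rw [map_list_prod]
    apply Subgroup.list_prod_mem
    intro x hx
    rw [List.map_map] at hx
    obtain ⟨i, _, rfl⟩ := List.mem_map.1 hx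
    apply Subgroup.subset_closure
    refine ⟨i, ?_⟩
    have h3 := (mem_FibP π₁ π₂ (s i).1).1 (s i).2
    show π₁ (s i).1.1 = π₂ (q i)
    rw [h3, ← hs i]; rfl
  -- the first factor
  have hW1 := pk_wfg ((p1 π₁ π₂).comp (iN π₁ π₂)) (by
      intro a b h
      exact Subtype.ext h) π₁ h1 (ker_iff π₁ π₂) F (fun i => p1 π₁ π₂ (s i))
    (fun i => (Φ i).push (iN π₁ π₂) (p1 π₁ π₂) F) hcl1 hG1 hQ
  rw [wfg_iff] at hW1
  -- the kernel of the first projection
  obtain ⟨H0, hH0⟩ := ker_fg' hpQ π₂ h2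
  have hex : ∀ h : Γ₂, ∃ h' : FibP π₁ π₂, π₂ h = 1 → h'.1 = (1, h) := by
    intro h
    by_cases hh : π₂ h = 1
    · exact ⟨⟨(1, h), by rw [mem_FibP, map_one, hh]⟩, fun _ => rfl⟩
    · exact ⟨1, fun h' => absurd h' hh⟩
  choose c hc using hex
  let H : Finset (FibP π₁ π₂) := H0.image c
  have hkerH : (p1 π₁ π₂).ker = Subgroup.normalClosure (H : Set (FibP π₁ π₂)) := by
    apply le_antisymm
    · intro g hg
      have hg1 : g.1.1 = 1 := hg
      have hg2 : g.1.2 ∈ π₂.ker := by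
        have := (mem_FibP π₁ π₂ g.1).1 g.2
        rw [MonoidHom.mem_ker, ← this, hg1, map_one]
      rw [hH0] at hg2
      -- the elements `γ` such that every lift `(1, γ)` lies in the closure
      let K := Subgroup.normalClosure (H : Set (FibP π₁ π₂))
      have hKn : K.Normal := Subgroup.normalClosure_normal
      have key : ∀ γ ∈ Subgroup.normalClosure (H0 : Set Γ₂), ∃ k ∈ K, k.1 = (1, γ) := by
        intro γ hγ
        induction hγ using Subgroup.closure_induction with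
        | mem x hx =>
          rw [Group.mem_conjugatesOfSet_iff] at hx
          obtain ⟨a, ha, hca⟩ := hx
          obtain ⟨g', hg'⟩ := isConj_iff.1 hca
          obtain ⟨g'', rfl⟩ := p2_surj π₁ π₂ h1 g'
          have ha2 : π₂ a = 1 := by
            have : a ∈ π₂.ker := by rw [hH0]; exact Subgroup.subset_normalClosure ha
            exact this
          have h4 : c a ∈ K := Subgroup.subset_normalClosure
            (Finset.mem_coe.2 (Finset.mem_image.2 ⟨a, ha, rfl⟩))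
          refine ⟨g'' * c a * g''⁻¹, hKn.conj_mem _ h4 g'', ?_⟩
          show g''.1 * (c a).1 * (g''.1)⁻¹ = (1, x)
          rw [hc a ha2, ← hg']
          apply Prod.ext
          · show g''.1.1 * 1 * (g''.1.1)⁻¹ = 1
            rw [mul_one, mul_inv_cancel]
          · rfl
        | one => exact ⟨1, K.one_mem, rfl⟩
        | mul x y _ _ hx hy =>
          obtain ⟨k, hk, hk'⟩ := hx
          obtain ⟨k2, hk2, hk2'⟩ := hy
          refine ⟨k * k2, K.mul_mem hk hk2, ?_⟩
          show k.1 * k2.1 = _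
          rw [hk', hk2', Prod.mk_mul_mk, mul_one]
        | inv x _ hx =>
          obtain ⟨k, hk, hk'⟩ := hx
          refine ⟨k⁻¹, K.inv_mem hk, ?_⟩
          show (k.1)⁻¹ = _
          rw [hk', Prod.inv_mk, inv_one]
      obtain ⟨k, hk, hk'⟩ := key _ hg2
      have : g = k := by
        apply Subtype.ext
        rw [hk']
        exact Prod.ext hg1 rfl
      rw [this]; exact hk
    · apply Subgroup.normalClosure_le_normal
      intro x hx
      obtain ⟨a, ha, rfl⟩ := Finset.mem_image.1 (Finset.mem_coe.1 hx)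
      have ha2 : π₂ a = 1 := by
        have : a ∈ π₂.ker := by rw [hH0]; exact Subgroup.subset_normalClosure ha
        exact this
      show (c a).1.1 = 1
      rw [hc a ha2]
  -- the section
  choose s2 hs2 using h2
  let sec : Γ₁ → FibP π₁ π₂ := fun γ => ⟨(γ, s2 (π₁ γ)), by rw [mem_FibP, hs2]⟩
  have hW := link (iN π₁ π₂) hN (p1 π₁ π₂) F s Φ (by
      intro a b h
      exact Subtype.ext h) sec (fun γ => rfl) (by
      intro γ ν
      apply Subtype.ext
      apply Prod.ext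
      · rfl
      · show s2 (π₁ (γ * ν.1)) = s2 (π₁ γ) * 1
        have : π₁ ν.1 = 1 := ν.2
        rw [map_mul, this, mul_one, mul_one]) (iN_inj π₁ π₂)
    (p1_surj π₁ π₂ fun x => ⟨s2 x, hs2 x⟩)
    (by
      intro h hh ν
      have hh1 : h.1.1 = 1 := hh
      apply Subtype.ext
      apply Prod.ext
      · show ν.1 * h.1.1 = h.1.1 * ν.1
        rw [hh1, mul_one, one_mul]
      · show 1 * h.1.2 = h.1.2 * 1
        rw [mul_one, one_mul]) hgen H hkerH hW1
  rw [← wfg_iff (iN π₁ π₂) F s Φ (p2 π₁ π₂)] at hW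
  exact wfg_pk (iN π₁ π₂) (iN_inj π₁ π₂) (p2 π₁ π₂) (p2_surj π₁ π₂ h1) (p2_ker π₁ π₂) F s Φ hcl2
    hW hG2

end main

end Pool.Agent.TH18.VS
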