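import Pool.Agent.TH18.VS.Basic

/-! Finitely generated nilpotent groups are finitely presented and of type `FP_∞`. -/

set_option autoImplicit false

namespace Pool.Agent.TH18.VS

open Pool.Agent.W326.DU (IL ZG)
open Pool.Agent.W571.DU
open Pool.Agent.TH18
open Pool.Agent.TH18.NN

theorem fpm_noeth {R : Type} [Ring R] [IsNoetherianRing R] : ∀ (n : ℕ) (M : Type) [AddCommGroup M]
    [Module R M] [Module.Finite R M], FPm R n M := by
  intro n
  induction n with
  | zero => intro M _ _ h; exact h
  | succ n ih =>
    intro M _ _ _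
    obtain ⟨k, f, hf⟩ := Module.Finite.exists_fin' R M
    exact ⟨k, f, hf, ih _⟩

theorem tr_finite (G : Type) [Group G] : Module.Finite (ZG G) (Tr G) :=
  Module.Finite.of_surjective (augL G) (augL_surj G)

theorem FPg.of_finite (G : Type) [Group G] [Finite G] (n : ℕ) : FPg n G := by
  have h0 : Module.Finite ℤ (MonoidAlgebra ℤ G) := by
    infer_instance
  have h1 : IsNoetherian ℤ (MonoidAlgebra ℤ G) := isNoetherian_of_isNoetherianRing_of_finite ℤ _
  have h2 : IsNoetherianRing (ZG G) := isNoetherian_of_tower ℤ h1
  have := tr_finite G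
  exact fpm_noeth n _

theorem FPg.of_comm (G : Type) [CommGroup G] [Group.FG G] (n : ℕ) : FPg n G := by
  have : Monoid.FG G := Group.fg_iff_monoid_fg.1 inferInstance
  have h1 : IsNoetherianRing (MonoidAlgebra ℤ G) :=
    Algebra.FiniteType.isNoetherianRing ℤ (MonoidAlgebra ℤ G)
  have h2 : IsNoetherianRing (ZG G) := h1
  have := tr_finite G
  exact fpm_noeth n _

theorem FPg.of_comm' (G : Type) [inst : Group G] (hc : ∀ a b : G, a * b = b * a) [Group.FG G]
    (n : ℕ) : FPg n G := by
  let _ : CommGroup G := { inst with mul_comm := hc }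
  exact FPg.of_comm G n

/-! ### finite presentations -/

theorem FPres.quot {G Q : Type} [Group G] [Group Q] (hG : FPres G) (π : G →* Q)
    (hπ : Function.Surjective π) (H : Finset G)
    (hH : π.ker = Subgroup.normalClosure (↑H : Set G)) : FPres Q := by
  classical
  obtain ⟨r, f, S, hf, hS⟩ := hG
  choose c hc using hf
  refine ⟨r, π.comp f, S ∪ H.image c, hπ.comp (fun g => ⟨c g, hc g⟩), le_antisymm ?_ ?_⟩
  · let K := Subgroup.normalClosure (↑(S ∪ H.image c) : Set (FreeGroup (Fin r)))
    have hK : K.Normal := Subgroup.normalClosure_normal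
    have h1 : f.ker ≤ K := by
      rw [hS]
      apply Subgroup.normalClosure_le_normal
      intro x hx
      exact Subgroup.subset_normalClosure (Finset.mem_coe.2 (Finset.mem_union_left _ hx))
    have h2 : Subgroup.normalClosure (↑H : Set G) ≤ K.map f := by
      have : (K.map f).Normal := hK.map f (fun g => ⟨c g, hc g⟩)
      apply Subgroup.normalClosure_le_normal
      intro x hx
      exact ⟨c x, Subgroup.subset_normalClosure (Finset.mem_coe.2 (Finset.mem_union_right _
        (Finset.mem_image.2 ⟨x, hx, rfl⟩))), hc x⟩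
    intro w hw
    have h3 : f w ∈ π.ker := hw
    rw [hH] at h3
    obtain ⟨v, hv, hvw⟩ := h2 h3
    have h4 : v⁻¹ * w ∈ f.ker := by
      rw [MonoidHom.mem_ker, map_mul, map_inv, hvw, inv_mul_cancel]
    have h5 := K.mul_mem hv (h1 h4)
    rwa [mul_inv_cancel_left] at h5
  · apply Subgroup.normalClosure_le_normal
    intro x hx
    rcases Finset.mem_union.1 (Finset.mem_coe.1 hx) with hx | hx
    · have : x ∈ f.ker := by rw [hS]; exact Subgroup.subset_normalClosure hx
      show π (f x) = 1
      rw [this, map_one]
    · obtain ⟨y, hy, rfl⟩ := Finset.mem_image.1 hx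
      show π (f (c y)) = 1
      rw [hc]
      have : y ∈ π.ker := by rw [hH]; exact Subgroup.subset_normalClosure hy
      exact this

theorem fg_surj (G : Type) [Group G] [h : Group.FG G] :
    ∃ (m : ℕ) (f : FreeGroup (Fin m) →* G), Function.Surjective f := by
  obtain ⟨α, _, φ, hφ⟩ := Group.fg_iff_exists_freeGroup_hom_surjective_finite.1 h
  obtain ⟨n, ⟨e⟩⟩ := Finite.exists_equiv_fin α
  exact ⟨n, φ.comp (FreeGroup.freeGroupCongr e).symm.toMonoidHom,
    hφ.comp (FreeGroup.freeGroupCongr e).symm.surjective⟩

theorem ker_fg' {G Q : Type} [Group G] [Group Q] [Group.FG G] (hQ : FPres Q) (π : G →* Q)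
    (hπ : Function.Surjective π) :
    ∃ H : Finset G, π.ker = Subgroup.normalClosure (↑H : Set G) := by
  classical
  obtain ⟨m, f, hf⟩ := fg_surj G
  obtain ⟨S, hS⟩ := hQ.ker (π.comp f) (hπ.comp hf)
  refine ⟨S.image f, ?_⟩
  have h1 : π.ker = (π.comp f).ker.map f := by
    ext x
    rw [Subgroup.mem_map]
    constructor
    · intro hx
      obtain ⟨w, rfl⟩ := hf x
      exact ⟨w, hx, rfl⟩
    · rintro ⟨w, hw, rfl⟩
      exact hw
  have h2 := Subgroup.map_normalClosure (↑S : Set (FreeGroup (Fin m))) f hf
  rw [h1, hS, h2, Finset.coe_image]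

/-- normal subgroups that are finitely generated are normal closures of finite sets -/
theorem fg_normal {G : Type} [Group G] (K : Subgroup G) [hK : K.Normal] (h : K.FG) :
    ∃ H : Finset G, K = Subgroup.normalClosure (↑H : Set G) := by
  obtain ⟨S, hS⟩ := h
  refine ⟨S, le_antisymm ?_ ?_⟩
  · rw [← hS, Subgroup.closure_le]
    exact Subgroup.subset_normalClosure
  · apply Subgroup.normalClosure_le_normal
    rw [← hS]
    exact Subgroup.subset_closure

theorem FPres.of_ker_fg {G : Type} [Group G] {m : ℕ} (f : FreeGroup (Fin m) →* G)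
    (hf : Function.Surjective f) (h : f.ker.FG) : FPres G := by
  obtain ⟨H, hH⟩ := fg_normal f.ker h
  exact ⟨m, f, H, hf, hH⟩

theorem FPres.of_finite (G : Type) [Group G] [Finite G] : FPres G := by
  obtain ⟨m, f, hf⟩ := fg_surj G
  have : f.ker.FiniteIndex := Subgroup.finiteIndex_ker f
  exact FPres.of_ker_fg f hf ((Group.fg_iff_subgroup_fg _).1 inferInstance)

theorem FPres.of_cyclic (G : Type) [Group G] [hG : IsCyclic G] : FPres G := by
  obtain ⟨a, ha⟩ := hG.exists_generator
  let f : FreeGroup (Fin 1) →* G := FreeGroup.lift fun _ => a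
  have hfa : f (FreeGroup.of 0) = a := by
    show FreeGroup.lift _ (FreeGroup.of 0) = _
    rw [FreeGroup.lift_apply_of]
  have hf : Function.Surjective f := by
    intro g
    obtain ⟨n, rfl⟩ := Subgroup.mem_zpowers_iff.1 (ha g)
    exact ⟨FreeGroup.of 0 ^ n, by rw [map_zpow, hfa]⟩
  have hc : IsCyclic (FreeGroup (Fin 1)) := by
    refine ⟨⟨FreeGroup.of 0, fun w => ?_⟩⟩
    show w ∈ Subgroup.zpowers (FreeGroup.of (0 : Fin 1))
    induction w using FreeGroup.induction_on with
    | C1 => exact Subgroup.one_mem _
    | of x => rw [Subsingleton.elim x 0]; exact Subgroup.mem_zpowers _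
    | inv_of x _ => rw [Subsingleton.elim x 0]; exact Subgroup.inv_mem _ (Subgroup.mem_zpowers _)
    | mul x y hx hy => exact Subgroup.mul_mem _ hx hy
  obtain ⟨z, hz⟩ := (Subgroup.isCyclic f.ker).exists_generator
  apply FPres.of_ker_fg f hf
  refine ⟨{z.1}, ?_⟩
  apply le_antisymm
  · rw [Subgroup.closure_le]
    intro x hx
    rw [Finset.mem_coe, Finset.mem_singleton] at hx
    rw [hx]; exact z.2
  · intro x hx
    obtain ⟨n, hn⟩ := Subgroup.mem_zpowers_iff.1 (hz ⟨x, hx⟩)
    have h1 : (z.1) ^ n = x := congrArg Subtype.val hn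
    rw [← h1]
    exact Subgroup.zpow_mem _ (Subgroup.subset_closure (by simp)) _

theorem FPres.of_comm_gens : ∀ (k : ℕ) (G : Type) [CommGroup G] (s : Fin k → G),
    Subgroup.closure (Set.range s) = ⊤ → FPres G := by
  intro k
  induction k with
  | zero =>
    intro G _ s hs
    have : Subsingleton G := by
      refine ⟨fun a b => ?_⟩
      have h1 : ∀ a : G, a = 1 := fun a => by
        have : a ∈ Subgroup.closure (Set.range s) := by rw [hs]; trivial
        rw [Set.range_eq_empty, Subgroup.closure_empty] at this
        exact Subgroup.mem_bot.1 this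
      rw [h1 a, h1 b]
    exact FPres.of_finite G
  | succ k ih =>
    intro G _ s hs
    let N := Subgroup.zpowers (s 0)
    have h1 : FPres (G ⧸ N) := by
      apply ih (G ⧸ N) (fun i => QuotientGroup.mk' N (s i.succ))
      rw [eq_top_iff]
      intro x _
      obtain ⟨g, rfl⟩ := QuotientGroup.mk'_surjective N x
      have hg : g ∈ Subgroup.closure (Set.range s) := by rw [hs]; trivial
      induction hg using Subgroup.closure_induction with
      | mem y hy =>
        obtain ⟨i, rfl⟩ := hy
        refine Fin.cases ?_ (fun i => ?_) i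
        · have : QuotientGroup.mk' N (s 0) = 1 := by
            rw [QuotientGroup.mk'_apply, QuotientGroup.eq_one_iff]
            exact Subgroup.mem_zpowers _
          rw [this]; exact Subgroup.one_mem _
        · exact Subgroup.subset_closure ⟨i, rfl⟩
      | one => rw [map_one]; exact Subgroup.one_mem _
      | mul x y _ _ hx hy => rw [map_mul]; exact Subgroup.mul_mem _ (hx trivial) (hy trivial)
      | inv x _ hx => rw [map_inv]; exact Subgroup.inv_mem _ (hx trivial)
    have h2 : FPres N := by
      have : IsCyclic N := inferInstance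
      exact FPres.of_cyclic N
    exact FPres.ext N.subtype Subtype.val_injective (QuotientGroup.mk' N)
      (QuotientGroup.mk'_surjective N) (fun g => by
        rw [QuotientGroup.mk'_apply, QuotientGroup.eq_one_iff]
        exact ⟨fun h => ⟨⟨g, h⟩, rfl⟩, by rintro ⟨ν, rfl⟩; exact ν.2⟩) h2 h1

theorem FPres.of_comm (G : Type) [CommGroup G] [h : Group.FG G] : FPres G := by
  obtain ⟨_, S, _, hS⟩ := Group.fg_iff'.1 h
  let e := S.equivFin
  refine FPres.of_comm_gens S.card G (fun i => (e.symm i).1) ?_
  rw [← hS]
  congr 1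
  ext x
  constructor
  · rintro ⟨i, rfl⟩
    exact (e.symm i).2
  · intro hx
    exact ⟨e ⟨x, hx⟩, by simp⟩

theorem FPres.of_comm' (G : Type) [inst : Group G] (hc : ∀ a b : G, a * b = b * a)
    [Group.FG G] : FPres G := by
  let _ : CommGroup G := { inst with mul_comm := hc }
  exact FPres.of_comm G

/-- Finitely generated nilpotent groups. -/
theorem nil_main (G : Type) [Group G] [Group.IsNilpotent G] :
    Group.FG G → FPres G ∧ ∀ n, FPg n G := by
  refine Group.nilpotent_center_quotient_ind
    (P := fun G _ _ => Group.FG G → FPres G ∧ ∀ n, FPg n G) G ?_ ?_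
  · intro G _ _ _
    exact ⟨FPres.of_finite G, fun n => FPg.of_finite G n⟩
  · intro G _ _ ih hG
    have hq : Group.FG (G ⧸ Subgroup.center G) := QuotientGroup.fg _
    obtain ⟨h1, h2⟩ := ih hq
    obtain ⟨H, hH⟩ := ker_fg' h1 (QuotientGroup.mk' (Subgroup.center G))
      (QuotientGroup.mk'_surjective _)
    rw [QuotientGroup.ker_mk'] at hH
    have hc : (Subgroup.center G).FG := by
      refine ⟨H, le_antisymm ?_ ?_⟩
      · rw [Subgroup.closure_le]
        intro x hx
        rw [hH]
        exact Subgroup.subset_normalClosure hx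
      · have h3 : Subgroup.normalClosure (↑H : Set G) ≤ Subgroup.closure (↑H : Set G) := by
          have hn : (Subgroup.closure (↑H : Set G)).Normal := by
            have h4 : Subgroup.closure (↑H : Set G) ≤ Subgroup.center G := by
              rw [Subgroup.closure_le]
              intro x hx
              rw [hH]
              exact Subgroup.subset_normalClosure hx
            refine ⟨fun x hx g => ?_⟩
            have h5 := Subgroup.mem_center_iff.1 (h4 hx) g
            rw [h5, mul_inv_cancel_right]; exact hx
          apply Subgroup.normalClosure_le_normal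
          exact Subgroup.subset_closure
        rw [← hH] at h3
        exact h3
    have hcfg : Group.FG (Subgroup.center G) := (Group.fg_iff_subgroup_fg _).2 hc
    have hker : ∀ g, QuotientGroup.mk' (Subgroup.center G) g = 1 ↔
        ∃ ν, (Subgroup.center G).subtype ν = g := fun g => by
      rw [QuotientGroup.mk'_apply, QuotientGroup.eq_one_iff]
      exact ⟨fun h => ⟨⟨g, h⟩, rfl⟩, by rintro ⟨ν, rfl⟩; exact ν.2⟩
    refine ⟨FPres.ext (Subgroup.center G).subtype Subtype.val_injective
      (QuotientGroup.mk' _) (QuotientGroup.mk'_surjective _) hker 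
      (FPres.of_comm' _ (fun a b => Subtype.ext (Subgroup.mem_center_iff.1 b.2 a.1))) h1,
      fun n => FPg.ext (Subgroup.center G).subtype Subtype.val_injective
      (QuotientGroup.mk' _) (QuotientGroup.mk'_surjective _) hker
      (FPg.of_comm' _ (fun a b => Subtype.ext (Subgroup.mem_center_iff.1 b.2 a.1)) n) (h2 n)⟩

end Pool.Agent.TH18.VS
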