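import Pool.Agent.TH18.VS.Fib

/-! Relation modules: groups of type `FP_2` are finitely presented up to commutators of relations. -/

set_option autoImplicit false

namespace Pool.Agent.TH18.VS

open Pool.Agent.W326.DU (IL ZG)
open Pool.Agent.W571.DU
open Pool.Agent.TH18
open Pool.Agent.TH18.NN

section rel
variable {Φ P : Type} [Group Φ] [Group P] {m : ℕ} (φ : Φ →* P) (x : Fin m → Φ)

/-- the abelianised kernel -/
abbrev Ab : Type := Additive (Abelianization φ.ker)

open Classical in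
/-- the class of an element -/
noncomputable def cl (g : Φ) : Ab φ :=
  if h : g ∈ φ.ker then Additive.ofMul (Abelianization.of (⟨g, h⟩ : φ.ker)) else 0

theorem cl_mem (g : Φ) (h : g ∈ φ.ker) : cl φ g = Additive.ofMul (Abelianization.of (⟨g, h⟩ : φ.ker)) :=
  dif_pos h

theorem cl_mul {a b : Φ} (ha : a ∈ φ.ker) (hb : b ∈ φ.ker) : cl φ (a * b) = cl φ a + cl φ b := by
  rw [cl_mem φ _ (φ.ker.mul_mem ha hb), cl_mem φ _ ha, cl_mem φ _ hb, ← ofMul_mul, ← map_mul]
  rfl

theorem cl_one : cl φ 1 = 0 := by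
  have h := cl_mul φ φ.ker.one_mem φ.ker.one_mem
  rw [mul_one] at h
  exact (left_eq_add.1 h)

theorem cl_inv {a : Φ} (ha : a ∈ φ.ker) : cl φ a⁻¹ = - cl φ a := by
  have h := cl_mul φ (φ.ker.inv_mem ha) ha
  rw [inv_mul_cancel, cl_one] at h
  exact (neg_eq_of_add_eq_zero_left h.symm).symm

/-- conjugation -/
noncomputable def kap (g : Φ) : Ab φ →+ Ab φ :=
  MonoidHom.toAdditive (Abelianization.map (MulAut.conjNormal (H := φ.ker) g).toMonoidHom)

theorem kap_cl (g : Φ) {a : Φ} (ha : a ∈ φ.ker) : kap φ g (cl φ a) = cl φ (g * a * g⁻¹) := by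
  have h1 : g * a * g⁻¹ ∈ φ.ker := (inferInstance : φ.ker.Normal).conj_mem _ ha g
  rw [cl_mem φ _ ha, cl_mem φ _ h1]
  rfl

variable (s : P → Φ) (hs : ∀ p, φ (s p) = p)

/-- additive maps from group rings -/
noncomputable def liftZ {A : Type} [AddCommGroup A] (f : P → A) : ZG P →+ A :=
  (Finsupp.liftAddHom (fun p => (zmultiplesHom A) (f p))).comp
    MonoidAlgebra.coeffAddEquiv.toAddMonoidHom

theorem liftZ_of {A : Type} [AddCommGroup A] (f : P → A) (p : P) :
    liftZ f (MonoidAlgebra.of ℤ P p) = f p := by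
  show Finsupp.liftAddHom _ (MonoidAlgebra.single p 1 : MonoidAlgebra ℤ P).coeff = _
  rw [MonoidAlgebra.coeff_single, Finsupp.liftAddHom_apply_single]
  show (1 : ℤ) • f p = f p
  rw [one_zsmul]

/-- the retraction -/
noncomputable def th : (Fin m → ZG P) →+ Ab φ where
  toFun v := ∑ j, liftZ (fun q => cl φ (s q * x j * (s (q * φ (x j)))⁻¹)) (v j)
  map_zero' := by simp
  map_add' v w := by
    rw [← Finset.sum_add_distrib]
    refine Finset.sum_congr rfl fun j _ => ?_
    rw [Pi.add_apply, map_add]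

theorem th_single (j : Fin m) (q : P) :
    th φ x s (Pi.single j (MonoidAlgebra.of ℤ P q)) = cl φ (s q * x j * (s (q * φ (x j)))⁻¹) := by
  show ∑ i, liftZ _ ((Pi.single j (MonoidAlgebra.of ℤ P q) : Fin m → ZG P) i) = _
  rw [Finset.sum_eq_single j]
  · rw [Pi.single_eq_same, liftZ_of]
  · intro i _ hi
    rw [Pi.single_eq_of_ne hi, map_zero]
  · intro h; exact absurd (Finset.mem_univ _) h

include hs in
theorem mem1 (j : Fin m) (q : P) : s q * x j * (s (q * φ (x j)))⁻¹ ∈ φ.ker := by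
  rw [MonoidHom.mem_ker, map_mul, map_mul, map_inv, hs, hs, mul_inv_cancel]

include hs in
theorem mem2 (w : Φ) (q : P) : s q * w * (s (q * φ w))⁻¹ ∈ φ.ker := by
  rw [MonoidHom.mem_ker, map_mul, map_mul, map_inv, hs, hs, mul_inv_cancel]

include hs in
theorem mem3 (p q : P) : s p * s q * (s (p * q))⁻¹ ∈ φ.ker := by
  rw [MonoidHom.mem_ker, map_mul, map_mul, map_inv, hs, hs, hs, mul_inv_cancel]

/-- additive induction on vectors over the group ring -/
theorem vec_ind {A : Type} [AddCommGroup A] (f g : (Fin m → ZG P) →+ A)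
    (h : ∀ j q, f (Pi.single j (MonoidAlgebra.of ℤ P q)) = g (Pi.single j (MonoidAlgebra.of ℤ P q)))
    (v : Fin m → ZG P) : f v = g v := by
  classical
  have h1 : ∀ (j : Fin m) (a : ZG P), f (Pi.single j a) = g (Pi.single j a) := by
    intro j a
    induction a using MonoidAlgebra.induction_on with
    | of q => exact h j q
    | add a b ha hb =>
      rw [Pi.single_add, map_add, map_add, ha, hb]
    | smul r a ha =>
      have e : (Pi.single j (r • a) : Fin m → ZG P) = r • Pi.single j a := by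
        rw [Pi.single_smul']
      rw [e, map_zsmul, map_zsmul, ha]
  rw [← Finset.univ_sum_single v, map_sum, map_sum]
  exact Finset.sum_congr rfl fun j _ => h1 j (v j)

/-- the defect of equivariance -/
noncomputable def Cp (p : P) : ZG P →+ Ab φ := liftZ (fun q => cl φ (s p * s q * (s (p * q))⁻¹))

theorem Cp_of (p q : P) : Cp φ s p (MonoidAlgebra.of ℤ P q) = cl φ (s p * s q * (s (p * q))⁻¹) :=
  liftZ_of _ _

/-- left hand side -/
noncomputable def fL (p : P) : (Fin m → ZG P) →+ Ab φ where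
  toFun w := kap φ (s p) (th φ x s w) + Cp φ s p (fq (fun j => φ (x j)) w)
  map_zero' := by rw [map_zero, map_zero, map_zero, map_zero, add_zero]
  map_add' v w := by
    rw [map_add, map_add, map_add, map_add]; abel

/-- right hand side -/
noncomputable def gL (p : P) : (Fin m → ZG P) →+ Ab φ where
  toFun w := th φ x s (MonoidAlgebra.of ℤ P p • w)
  map_zero' := by rw [smul_zero, map_zero]
  map_add' v w := by rw [smul_add, map_add]

theorem fL_apply (p : P) (w : Fin m → ZG P) :
    fL φ x s p w = kap φ (s p) (th φ x s w) + Cp φ s p (fq (fun j => φ (x j)) w) := rfl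

theorem gL_apply (p : P) (w : Fin m → ZG P) :
    gL φ x s p w = th φ x s (MonoidAlgebra.of ℤ P p • w) := rfl

include hs in
theorem fL_gL (p : P) (j : Fin m) (q : P) :
    fL φ x s p (Pi.single j (MonoidAlgebra.of ℤ P q)) =
      gL φ x s p (Pi.single j (MonoidAlgebra.of ℤ P q)) := by
  rw [fL_apply, gL_apply]
  have e1 : (MonoidAlgebra.of ℤ P p • Pi.single j (MonoidAlgebra.of ℤ P q) : Fin m → ZG P) =
      Pi.single j (MonoidAlgebra.of ℤ P (p * q)) := by
    rw [← Pi.single_smul', smul_eq_mul, ← map_mul]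
  have e2 : fq (fun j => φ (x j)) (Pi.single j (MonoidAlgebra.of ℤ P q)) =
      MonoidAlgebra.of ℤ P (q * φ (x j)) - MonoidAlgebra.of ℤ P q := by
    rw [fq_apply, Finset.sum_eq_single j]
    · rw [Pi.single_eq_same, ← map_mul]
    · intro i _ hi
      rw [Pi.single_eq_of_ne hi, zero_mul, sub_zero]
    · intro h; exact absurd (Finset.mem_univ _) h
  rw [e1, e2, th_single, th_single, map_sub, kap_cl φ _ (mem1 φ x s hs j q), Cp_of, Cp_of]
  have e3 : s p * (s q * x j * (s (q * φ (x j)))⁻¹) * (s p)⁻¹ =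
      (s p * s q * (s (p * q))⁻¹) * (s (p * q) * x j * (s (p * q * φ (x j)))⁻¹) *
      (s p * s (q * φ (x j)) * (s (p * (q * φ (x j))))⁻¹)⁻¹ := by
    rw [mul_assoc p q (φ (x j))]
    group
  rw [e3, cl_mul φ (φ.ker.mul_mem (mem3 φ s hs _ _) (mem1 φ x s hs _ _))
    (φ.ker.inv_mem (mem3 φ s hs _ _)), cl_mul φ (mem3 φ s hs _ _) (mem1 φ x s hs _ _),
    cl_inv φ (mem3 φ s hs _ _)]
  abel

include hs in
/-- the retraction is equivariant on cycles -/
theorem th_smul (p : P) (v : Fin m → ZG P) (hv : fq (fun j => φ (x j)) v = 0) :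
    th φ x s (MonoidAlgebra.of ℤ P p • v) = kap φ (s p) (th φ x s v) := by
  have h1 : fL φ x s p v = gL φ x s p v := vec_ind _ _ (fL_gL φ x s hs p) v
  have h2 := fL_apply φ x s p v
  have h3 := gL_apply φ x s p v
  rw [← h3, ← h1, h2, hv, map_zero, add_zero]

include hs in
/-- every element has a Fox vector -/
theorem fox_vec (hx : Subgroup.closure (Set.range x) = ⊤) (w : Φ) : ∃ v : Fin m → ZG P,
    fq (fun j => φ (x j)) v = MonoidAlgebra.of ℤ P (φ w) - 1 ∧
    ∀ q, th φ x s (MonoidAlgebra.of ℤ P q • v) = cl φ (s q * w * (s (q * φ w))⁻¹) := by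
  have hw : w ∈ Subgroup.closure (Set.range x) := by rw [hx]; trivial
  induction hw using Subgroup.closure_induction with
  | mem y hy =>
    obtain ⟨j, rfl⟩ := hy
    refine ⟨Pi.single j 1, ?_, fun q => ?_⟩
    · rw [fq_apply, Finset.sum_eq_single j]
      · rw [Pi.single_eq_same, one_mul]
      · intro i _ hi
        rw [Pi.single_eq_of_ne hi, zero_mul, sub_zero]
      · intro h; exact absurd (Finset.mem_univ _) h
    · rw [← Pi.single_smul', smul_eq_mul, mul_one, th_single]
  | one =>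
    refine ⟨0, ?_, fun q => ?_⟩
    · rw [map_zero, map_one, map_one, sub_self]
    · rw [smul_zero, map_zero, map_one, mul_one, mul_one, mul_inv_cancel, cl_one]
  | mul a b _ _ ha hb =>
    obtain ⟨v, hv1, hv2⟩ := ha
    obtain ⟨w, hw1, hw2⟩ := hb
    refine ⟨v + MonoidAlgebra.of ℤ P (φ a) • w, ?_, fun q => ?_⟩
    · rw [map_add, map_smul, hv1, hw1, smul_eq_mul, mul_sub, ← map_mul, ← map_mul, mul_one]
      abel
    · rw [smul_add, map_add, hv2, smul_smul, ← map_mul, hw2,
        ← cl_mul φ (mem2 φ s hs _ _) (mem2 φ s hs _ _)]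
      congr 1
      rw [map_mul, ← mul_assoc q]
      group
  | inv a _ ha =>
    obtain ⟨v, hv1, hv2⟩ := ha
    have e : φ a⁻¹ = (φ a)⁻¹ := MonoidHom.map_inv φ a
    refine ⟨- (MonoidAlgebra.of ℤ P (φ a)⁻¹ • v), ?_, fun q => ?_⟩
    · rw [map_neg, map_smul, hv1, smul_eq_mul, mul_sub, ← map_mul, inv_mul_cancel, mul_one,
        map_one, e, neg_sub]
    · rw [smul_neg, map_neg, smul_smul, ← map_mul, hv2, ← cl_inv φ (mem2 φ s hs _ _), e,
        inv_mul_cancel_right]
      congr 1
      group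

include hs in
/-- **Relations up to commutators.** -/
theorem rel (hx : Subgroup.closure (Set.range x) = ⊤) (hP : FPg 2 P) :
    ∃ S : Finset Φ, (∀ y ∈ S, y ∈ φ.ker) ∧
      φ.ker ≤ Subgroup.normalClosure (↑S : Set Φ) ⊔ ⁅φ.ker, φ.ker⁆ := by
  classical
  let q : Fin m → P := fun j => φ (x j)
  have hφ : Function.Surjective φ := fun p => ⟨s p, hs p⟩
  have hq : Subgroup.closure (Set.range q) = ⊤ := by
    rw [eq_top_iff]
    intro p _
    obtain ⟨w, rfl⟩ := hφ p
    have hw : w ∈ Subgroup.closure (Set.range x) := by rw [hx]; trivial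
    induction hw using Subgroup.closure_induction with
    | mem y hy => obtain ⟨j, rfl⟩ := hy; exact Subgroup.subset_closure ⟨j, rfl⟩
    | one => rw [map_one]; exact Subgroup.one_mem _
    | mul a b _ _ ha hb => rw [map_mul]; exact Subgroup.mul_mem _ (ha trivial) (hb trivial)
    | inv a _ ha => rw [map_inv]; exact Subgroup.inv_mem _ (ha trivial)
  -- the module of cycles is finitely generated
  have h1 : FPm (ZG P) 1 (LinearMap.ker (augL P)) := by
    refine FPm.ker (augL P) (augL_surj P) ?_ hP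
    exact (FPm.free 1 1).equiv (LinearEquiv.funUnique (Fin 1) (ZG P) (ZG P))
  have h2 : FPm (ZG P) 0 (LinearMap.ker (fq q)) := by
    have h3 : FPm (ZG P) 1 (LinearMap.range (fq q)) := by rw [fq_range q hq]; exact h1
    have h4 := FPm.ker (fq q).rangeRestrict (LinearMap.surjective_rangeRestrict _)
      (FPm.free 0 m) h3
    rwa [LinearMap.ker_rangeRestrict] at h4
  obtain ⟨T, hT⟩ : (LinearMap.ker (fq q)).FG := Module.Finite.iff_fg.1 h2
  -- lifts
  have h5 : ∀ v : Fin m → ZG P, ∃ d : Φ, d ∈ φ.ker ∧ cl φ d = th φ x s v := by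
    intro v
    obtain ⟨⟨d, hd⟩, hd'⟩ := QuotientGroup.mk_surjective (Additive.toMul (th φ x s v))
    refine ⟨d, hd, ?_⟩
    rw [cl_mem φ d hd]
    exact congrArg Additive.ofMul hd'
  choose d hd1 hd2 using h5
  let S : Finset Φ := T.image d
  have hS : ∀ y ∈ S, y ∈ φ.ker := by
    intro y hy
    obtain ⟨v, _, rfl⟩ := Finset.mem_image.1 hy
    exact hd1 v
  refine ⟨S, hS, ?_⟩
  let N := Subgroup.normalClosure (↑S : Set Φ)
  have hN : N ≤ φ.ker := Subgroup.normalClosure_le_normal hS
  let U : AddSubgroup (Ab φ) :=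
    { carrier := {a | ∃ n ∈ N, cl φ n = a}
      add_mem' := by
        rintro _ _ ⟨n, hn, rfl⟩ ⟨n', hn', rfl⟩
        exact ⟨n * n', N.mul_mem hn hn', cl_mul φ (hN hn) (hN hn')⟩
      zero_mem' := ⟨1, N.one_mem, cl_one φ⟩
      neg_mem' := by
        rintro _ ⟨n, hn, rfl⟩
        exact ⟨n⁻¹, N.inv_mem hn, cl_inv φ (hN hn)⟩ }
  have h6 : ∀ v ∈ LinearMap.ker (fq q), ∀ p : P, th φ x s (MonoidAlgebra.of ℤ P p • v) ∈ U := by
    intro v hv
    rw [← hT] at hv
    induction hv using Submodule.span_induction with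
    | mem v hv =>
      intro p
      have hv' : fq q v = 0 := by
        have : v ∈ LinearMap.ker (fq q) := by rw [← hT]; exact Submodule.subset_span hv
        exact this
      rw [th_smul φ x s hs p v hv', ← hd2 v, kap_cl φ _ (hd1 v)]
      exact ⟨_, Subgroup.normalClosure_normal.conj_mem _ (Subgroup.subset_normalClosure
        (Finset.mem_coe.2 (Finset.mem_image.2 ⟨v, hv, rfl⟩))) _, rfl⟩
    | zero => intro p; rw [smul_zero, map_zero]; exact U.zero_mem
    | add v w _ _ hv hw => intro p; rw [smul_add, map_add]; exact U.add_mem (hv p) (hw p)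
    | smul a v _ hv =>
      intro p
      induction a using MonoidAlgebra.induction_on with
      | of g => rw [smul_smul, ← map_mul]; exact hv _
      | add a b ha hb => rw [add_smul, smul_add, map_add]; exact U.add_mem ha hb
      | smul r a ha =>
        rw [smul_assoc, smul_comm, map_zsmul]
        exact U.zsmul_mem ha r
  intro w hw
  -- a Fox vector
  obtain ⟨v, hv1, hv2⟩ := fox_vec φ x s hs hx ((s 1)⁻¹ * w * s 1)
  have hw1 : (s 1)⁻¹ * w * s 1 ∈ φ.ker := by
    have := (inferInstance : φ.ker.Normal).conj_mem _ hw (s 1)⁻¹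
    rwa [inv_inv] at this
  have hv3 : v ∈ LinearMap.ker (fq q) := by
    show fq q v = 0
    rw [hv1, MonoidHom.mem_ker.1 hw1, map_one, sub_self]
  have h7 := h6 v hv3 1
  rw [hv2 1, MonoidHom.mem_ker.1 hw1, one_mul] at h7
  have e : s 1 * ((s 1)⁻¹ * w * s 1) * (s 1)⁻¹ = w := by group
  rw [e] at h7
  obtain ⟨n, hn, hnw⟩ := h7
  rw [cl_mem φ n (hN hn), cl_mem φ w hw] at hnw
  have h8 : (Abelianization.of (⟨n, hN hn⟩ : φ.ker)) = Abelianization.of (⟨w, hw⟩ : φ.ker) :=
    Additive.ofMul.injective hnw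
  have h9 : (⟨n, hN hn⟩ : φ.ker)⁻¹ * ⟨w, hw⟩ ∈ commutator φ.ker := QuotientGroup.eq.1 h8
  have h10 : n⁻¹ * w ∈ ⁅φ.ker, φ.ker⁆ := by
    have h11 : (commutator φ.ker).map φ.ker.subtype = ⁅φ.ker, φ.ker⁆ := by
      rw [commutator_def, Subgroup.map_commutator, ← MonoidHom.range_eq_map, Subgroup.range_subtype]
    rw [← h11]
    exact ⟨_, h9, rfl⟩
  have h12 := Subgroup.mul_mem_sup hn h10
  rwa [mul_inv_cancel_left] at h12

end rel

end Pool.Agent.TH18.VS
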